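import Pool.Agent.H607.Uni.Dio
import Mathlib

/-!
# The Diophantine properties of the sums `∑ y_i β_i^m`: two indices
-/

set_option autoImplicit false

namespace Pool.Agent.H607.Uni

open Finset Filter Topology

variable {r : ℕ} {a : Fin r → ℕ} {q : ℕ}

/-- the choice of the relative size of the window -/
lemma exists_eta (β : Fin r → ℝ) (hβ : ∀ i, 1 < β i) : ∃ η : ℝ, 0 < η ∧ η ≤ 1 ∧
    ∀ i j, β i < β j → η + (1 + η) * Real.log (β i) < Real.log (β j) := by
  have h1 : ∀ᶠ η in 𝓝[>] (0 : ℝ), ∀ i j, β i < β j → η + (1 + η) * Real.log (β i) < Real.log (β j) := by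
    rw [eventually_all]
    intro i
    rw [eventually_all]
    intro j
    by_cases h : β i < β j
    · have h2 : Real.log (β i) < Real.log (β j) := Real.log_lt_log (by linarith [hβ i]) h
      have h3 : Tendsto (fun η : ℝ => η + (1 + η) * Real.log (β i)) (𝓝 0) (𝓝 (0 + (1 + 0) * Real.log (β i))) := by
        apply Continuous.tendsto
        fun_prop
      have h4 : (0 : ℝ) + (1 + 0) * Real.log (β i) < Real.log (β j) := by linarith
      have h5 := h3.eventually_lt_const h4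
      filter_upwards [h5.filter_mono nhdsWithin_le_nhds] with η h6 _ using h6
    · exact Eventually.of_forall fun η h' => absurd h' h
  have h2 : ∀ᶠ η in 𝓝[>] (0 : ℝ), 0 < η ∧ η ≤ 1 := by
    filter_upwards [Ioc_mem_nhdsGT (show (0 : ℝ) < 1 by norm_num)] with η h using h
  obtain ⟨η, h3, h4, h5⟩ := (h1.and h2).exists
  exact ⟨η, h4, h5, h3⟩

theorem dio2 (hr : 1 ≤ r) (hq : 1 ≤ q) (haq : ∀ i, q < a i) (hinj : Function.Injective a)
    (y : Fin r → ℝ) (hy : ∀ i, IsAlgebraic ℚ (y i)) (hirr : ∀ i, Irrational (y i)) {η ε : ℝ} (hη : 0 < η)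
    (hη1 : η ≤ 1)
    (hgap : ∀ i j, (a i : ℝ) / q < (a j : ℝ) / q →
      η + (1 + η) * Real.log ((a i : ℝ) / q) < Real.log ((a j : ℝ) / q))
    (hε : 0 < ε) : ∃ M : ℕ, ∀ m, M ≤ m → ∀ (g R d : ℕ), 1 ≤ g → 1 ≤ R → 1 ≤ d → Real.log g ≤ η * m →
      Real.log R ≤ η * m → (d : ℝ) ≤ η * m → ∀ z : ℤ,
      Real.exp (-(ε * m)) ≤ ((g : ℝ) ^ 2 * R) ^ r * |g * (TT a q y (m + d) * R - TT a q y m) - z| := by
  classical
  by_contra hcon
  push Not at hcon
  have : Nonempty (Fin r) := ⟨⟨0, hr⟩⟩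
  set S : Set ℕ := {m : ℕ | ∃ g R d : ℕ, 1 ≤ g ∧ 1 ≤ R ∧ 1 ≤ d ∧ Real.log g ≤ η * m ∧ Real.log R ≤ η * m ∧
    (d : ℝ) ≤ η * m ∧ ∃ z : ℤ,
    ((g : ℝ) ^ 2 * R) ^ r * |g * (TT a q y (m + d) * R - TT a q y m) - z| < Real.exp (-(ε * m))} with hSdef
  have hS : S.Infinite := by
    rw [Set.infinite_iff_exists_gt]
    intro M
    obtain ⟨m, hm, g, R, d, h1, h2, h3, h4, h5, h6, z, hz⟩ := hcon (M + 1)
    exact ⟨m, ⟨g, R, d, h1, h2, h3, h4, h5, h6, z, hz⟩, by omega⟩
  choose! g R d hg1 hR1 hd1 hgη hRη hdη z hz using fun (m : ℕ) (hm : m ∈ S) => hm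
  have hq0 : (0 : ℝ) < q := by exact_mod_cast hq
  have hgR : ∀ m ∈ S, (1 : ℝ) ≤ g m := fun m hm => by exact_mod_cast hg1 m hm
  have hRR : ∀ m ∈ S, (1 : ℝ) ≤ R m := fun m hm => by exact_mod_cast hR1 m hm
  have hβ := beta_gt hq haq
  have hβinj := beta_inj hq hinj
  have hsum : ∀ m, ∀ w w' : Fin r → ℝ, ∑ i, w i * (((g m * R m : ℕ) : ℝ) * ((a i : ℝ) ^ m * (a i : ℝ) ^ d m)) +
      ∑ i, w' i * ((g m : ℝ) * ((a i : ℝ) ^ m * (q : ℝ) ^ d m)) =
      ((q : ℝ) ^ m * (q : ℝ) ^ d m) * (g m * (R m * ∑ i, w i * ((a i : ℝ) / q) ^ (m + d m) +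
        ∑ i, w' i * ((a i : ℝ) / q) ^ m)) := by
    intro m w w'
    have e1 : ∑ i, w i * (((g m * R m : ℕ) : ℝ) * ((a i : ℝ) ^ m * (a i : ℝ) ^ d m)) =
        ((q : ℝ) ^ m * (q : ℝ) ^ d m) * (g m * (R m * ∑ i, w i * ((a i : ℝ) / q) ^ (m + d m))) := by
      rw [mul_sum, mul_sum, mul_sum]
      refine sum_congr rfl fun i _ => ?_
      rw [pow_add, div_pow, div_pow]
      push_cast
      field_simp
    have e2 : ∑ i, w' i * ((g m : ℝ) * ((a i : ℝ) ^ m * (q : ℝ) ^ d m)) =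
        ((q : ℝ) ^ m * (q : ℝ) ^ d m) * (g m * ∑ i, w' i * ((a i : ℝ) / q) ^ m) := by
      rw [mul_sum, mul_sum]
      refine sum_congr rfl fun i _ => ?_
      rw [div_pow]
      field_simp
    rw [e1, e2]
    ring
  obtain ⟨u0, u, hu, hinf⟩ := sub_gen (κ := Fin r ⊕ Fin r) (Sum.elim y (fun i => -y i))
    (by
      rintro (i | i)
      · exact hy i
      · exact (hy i).neg)
    (ι := Fin 2) (fun _ => q) (fun _ => hq)
    (fun v i => Sum.elim (fun i => a i) (fun i => if v = 0 then a i else q) i)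
    (by
      intro v i
      rcases i with i | i
      · have := haq i
        simp only [Sum.elim_inl]
        omega
      · have := haq i
        simp only [Sum.elim_inr]
        split_ifs <;> omega)
    (fun m v => if v = 0 then m else d m) 3 ε (by norm_num) hε
    (fun m i => Sum.elim (fun _ => g m * R m) (fun _ => g m) i) z S hS
    (by
      intro m hm i
      rcases i with i | i
      · exact Nat.mul_pos (hg1 m hm) (hR1 m hm)
      · exact hg1 m hm)
    (by
      intro m hm i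
      have h0 : (0 : ℝ) ≤ m := Nat.cast_nonneg m
      have h1 := hgη m hm
      have h2 := hRη m hm
      have h3 : η * m ≤ m := by nlinarith
      rcases i with i | i
      · simp only [Sum.elim_inl]
        push_cast
        rw [Real.log_mul (by have := hgR m hm; positivity) (by have := hRR m hm; positivity)]
        linarith
      · simp only [Sum.elim_inr]
        linarith)
    (by
      intro m hm v
      have h0 : (0 : ℝ) ≤ m := Nat.cast_nonneg m
      have h1 := hdη m hm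
      have h3 : η * m ≤ m := by nlinarith
      split_ifs <;> linarith)
    (by
      intro m hm
      rw [Fintype.sum_sum_type, Fintype.prod_sum_type]
      simp only [Fin.prod_univ_two, Sum.elim_inl, Sum.elim_inr, if_true, if_false, prod_const, card_univ,
        Fintype.card_fin, one_ne_zero]
      rw [hsum m y (fun i => -y i)]
      have h1 := (hz m hm).le
      have h2 := hgR m hm
      have h2' := hRR m hm
      have h3 : ((q : ℝ) ^ m * (q : ℝ) ^ d m) * (g m * (R m * ∑ i, y i * ((a i : ℝ) / q) ^ (m + d m) +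
          ∑ i, -y i * ((a i : ℝ) / q) ^ m)) - z m * ((q : ℝ) ^ m * (q : ℝ) ^ d m) =
          ((q : ℝ) ^ m * (q : ℝ) ^ d m) * (g m * (TT a q y (m + d m) * R m - TT a q y m) - z m) := by
        unfold TT
        simp only [neg_mul, sum_neg_distrib]
        ring
      rw [h3, abs_mul, abs_of_pos (show (0 : ℝ) < (q : ℝ) ^ m * (q : ℝ) ^ d m by positivity),
        le_div_iff₀ (by push_cast; positivity)]
      calc (q : ℝ) ^ m * (q : ℝ) ^ d m * |g m * (TT a q y (m + d m) * R m - TT a q y m) - z m| *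
            (((g m * R m : ℕ) : ℝ) ^ r * (g m : ℝ) ^ r) =
          ((q : ℝ) ^ m * (q : ℝ) ^ d m) *
            (((g m : ℝ) ^ 2 * R m) ^ r * |g m * (TT a q y (m + d m) * R m - TT a q y m) - z m|) := by
            push_cast
            rw [mul_pow, mul_pow, ← pow_mul, mul_comm 2 r, pow_mul, sq]
            ring
        _ ≤ ((q : ℝ) ^ m * (q : ℝ) ^ d m) * Real.exp (-(ε * m)) := by gcongr)
  set S' := {m ∈ S | (u0 : ℝ) * z m + g m * (R m * ∑ i, (u (Sum.inl i) : ℝ) * ((a i : ℝ) / q) ^ (m + d m) +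
      ∑ i, (u (Sum.inr i) : ℝ) * ((a i : ℝ) / q) ^ m) = 0} with hS'def
  have hS' : S'.Infinite := by
    refine hinf.mono ?_
    rintro m ⟨hm, h⟩
    refine ⟨hm, ?_⟩
    rw [Fintype.sum_sum_type] at h
    simp only [Fin.prod_univ_two, Sum.elim_inl, Sum.elim_inr, if_true, if_false, one_ne_zero] at h
    have h5 := hsum m (fun i => (u (Sum.inl i) : ℝ)) (fun i => (u (Sum.inr i) : ℝ))
    rw [h5] at h
    have h1 : ((q : ℝ) ^ m * (q : ℝ) ^ d m) * ((u0 : ℝ) * z m +
        g m * (R m * ∑ i, (u (Sum.inl i) : ℝ) * ((a i : ℝ) / q) ^ (m + d m) +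
      ∑ i, (u (Sum.inr i) : ℝ) * ((a i : ℝ) / q) ^ m)) = 0 := by
      linear_combination h
    exact (mul_eq_zero.1 h1).resolve_left (by positivity)
  have hsub : ∀ m ∈ S', m ∈ S := fun m hm => hm.1
  have hratne : ∀ (R₀ d₀ : ℕ), 1 ≤ R₀ → 1 ≤ d₀ → ∀ i, (0 : ℝ) < R₀ * ((a i : ℝ) / q) ^ d₀ - 1 := by
    intro R₀ d₀ h1 h2 i
    have h3 : (1 : ℝ) ≤ R₀ := by exact_mod_cast h1
    have h4 : (1 : ℝ) < ((a i : ℝ) / q) ^ d₀ := one_lt_pow₀ (hβ i) (by omega)
    nlinarith
  by_cases hu0 : u0 = 0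
  · -- the relation does not involve `z`
    have hAB : (∃ i, ((u (Sum.inl i) : ℤ) : ℝ) ≠ 0) ∨ ∃ i, -((u (Sum.inr i) : ℤ) : ℝ) ≠ 0 := by
      rcases hu with h | h
      · exact absurd hu0 h
      · by_contra hno
        push Not at hno
        apply h
        funext i
        rcases i with i | i
        · have := hno.1 i
          exact_mod_cast this
        · have := hno.2 i
          rw [neg_eq_zero] at this
          exact_mod_cast this
    obtain ⟨R₀, d₀, hinf₂, _⟩ := two_sums (fun i => (a i : ℝ) / q) hβ hβinj hη hgap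
      (fun i => (u (Sum.inl i) : ℝ)) (fun i => -(u (Sum.inr i) : ℝ)) hAB R d hS'
      (fun m hm => hR1 m (hsub m hm)) (fun m hm => hRη m (hsub m hm)) (fun m hm => hdη m (hsub m hm)) (by
        rintro m ⟨hm, h⟩
        rw [hu0, Int.cast_zero, zero_mul, zero_add] at h
        have h3 := (mul_eq_zero.1 h).resolve_left (by have := hgR m hm; positivity)
        have h4 : (R m : ℝ) * ∑ i, (u (Sum.inl i) : ℝ) * ((a i : ℝ) / q) ^ (m + d m) -
            ∑ i, -(u (Sum.inr i) : ℝ) * ((a i : ℝ) / q) ^ m = 0 := by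
          simp only [neg_mul, sum_neg_distrib]
          linarith
        rw [h4, abs_zero]
        norm_num)
    obtain ⟨m₀, hm₀⟩ := hinf₂.nonempty
    have hR₀ : 1 ≤ R₀ := by have := hR1 m₀ hm₀.1.1; have := hm₀.2.1; omega
    have hd₀ : 1 ≤ d₀ := by have := hd1 m₀ hm₀.1.1; have := hm₀.2.2; omega
    set y' : Fin r → ℝ := fun i => y i * (R₀ * ((a i : ℝ) / q) ^ d₀ - 1) with hy'
    have hy'e : ∀ i, y' i = (((R₀ * ((a i : ℚ) / q) ^ d₀ - 1 : ℚ)) : ℝ) * y i := by
      intro i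
      rw [hy']
      push_cast
      ring
    have hne' : ∀ i, (R₀ * ((a i : ℚ) / q) ^ d₀ - 1 : ℚ) ≠ 0 := by
      intro i h
      have h1 := hratne R₀ d₀ hR₀ hd₀ i
      have h2 : (((R₀ * ((a i : ℚ) / q) ^ d₀ - 1 : ℚ)) : ℝ) = 0 := by rw [h]; simp
      push_cast at h2
      linarith
    obtain ⟨M, hM⟩ := dio1 hr hq haq hinj y' (fun i => by
        rw [hy'e]
        exact (isAlgebraic_algebraMap (R := ℚ) (A := ℝ) _).mul (hy i)) (fun i => by
        rw [hy'e]
        exact (hirr i).ratCast_mul (hne' i)) (c := η) hη.le hε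
    obtain ⟨m, ⟨hm, hmR, hmd⟩, hmM⟩ := hinf₂.exists_gt M
    have hmS := hsub m hm
    have h1 := hM m hmM.le (g m) (hg1 m hmS) (hgη m hmS) (z m)
    have h2 := hz m hmS
    have h3 : TT a q y (m + d m) * R m - TT a q y m = TT a q y' m := by
      rw [hmR, hmd]
      unfold TT
      rw [sum_mul, ← sum_sub_distrib]
      refine sum_congr rfl fun i _ => ?_
      rw [hy', pow_add]
      ring
    rw [h3] at h2
    have h4 : (g m : ℝ) ^ r * |g m * TT a q y' m - z m| ≤
        ((g m : ℝ) ^ 2 * R m) ^ r * |g m * TT a q y' m - z m| := by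
      have h5 := hgR m hmS
      have h6 := hRR m hmS
      gcongr
      nlinarith
    linarith
  · -- `z` is determined
    have hu0R : (u0 : ℝ) ≠ 0 := by exact_mod_cast hu0
    have hAne : ∃ i, y i + (u (Sum.inl i) : ℝ) / u0 ≠ 0 := by
      refine ⟨⟨0, hr⟩, fun h => hirr ⟨0, hr⟩ ⟨-((u (Sum.inl ⟨0, hr⟩) : ℚ) / u0), ?_⟩⟩
      push_cast
      linarith
    obtain ⟨R₀, d₀, hinf₂, hrel⟩ := two_sums (fun i => (a i : ℝ) / q) hβ hβinj hη hgap
      (fun i => y i + (u (Sum.inl i) : ℝ) / u0) (fun i => y i - (u (Sum.inr i) : ℝ) / u0) (Or.inl hAne) R d hS'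
      (fun m hm => hR1 m (hsub m hm)) (fun m hm => hRη m (hsub m hm)) (fun m hm => hdη m (hsub m hm)) (by
        rintro m ⟨hm, h⟩
        have h1 := hgR m hm
        have h1' := hRR m hm
        have h2 : (z m : ℝ) = -(g m * (R m * ∑ i, ((u (Sum.inl i) : ℝ) / u0) * ((a i : ℝ) / q) ^ (m + d m) +
            ∑ i, ((u (Sum.inr i) : ℝ) / u0) * ((a i : ℝ) / q) ^ m)) := by
          have h6 : ∑ i, (u (Sum.inl i) : ℝ) * ((a i : ℝ) / q) ^ (m + d m) =
              u0 * ∑ i, ((u (Sum.inl i) : ℝ) / u0) * ((a i : ℝ) / q) ^ (m + d m) := by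
            rw [mul_sum]
            refine sum_congr rfl fun i _ => ?_
            field_simp
          have h7 : ∑ i, (u (Sum.inr i) : ℝ) * ((a i : ℝ) / q) ^ m =
              u0 * ∑ i, ((u (Sum.inr i) : ℝ) / u0) * ((a i : ℝ) / q) ^ m := by
            rw [mul_sum]
            refine sum_congr rfl fun i _ => ?_
            field_simp
          rw [h6, h7] at h
          have h8 : (u0 : ℝ) * (z m + (g m * (R m * ∑ i, ((u (Sum.inl i) : ℝ) / u0) * ((a i : ℝ) / q) ^ (m + d m) +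
            ∑ i, ((u (Sum.inr i) : ℝ) / u0) * ((a i : ℝ) / q) ^ m))) = 0 := by
            linear_combination h
          have h9 := (mul_eq_zero.1 h8).resolve_left hu0R
          linarith
        have h3 := hz m hm
        have h4 : (g m : ℝ) * (TT a q y (m + d m) * R m - TT a q y m) - z m =
            g m * (R m * ∑ i, (y i + (u (Sum.inl i) : ℝ) / u0) * ((a i : ℝ) / q) ^ (m + d m) -
              ∑ i, (y i - (u (Sum.inr i) : ℝ) / u0) * ((a i : ℝ) / q) ^ m) := by
          rw [h2]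
          unfold TT
          simp only [add_mul, sub_mul, sum_add_distrib, sum_sub_distrib]
          ring
        rw [h4, abs_mul, abs_of_pos (show (0 : ℝ) < (g m : ℝ) by linarith)] at h3
        have h7 : Real.exp (-(ε * m)) ≤ 1 := by
          rw [Real.exp_le_one_iff]
          have : (0 : ℝ) ≤ m := Nat.cast_nonneg m
          nlinarith
        set D := |(R m : ℝ) * ∑ i, (y i + (u (Sum.inl i) : ℝ) / u0) * ((a i : ℝ) / q) ^ (m + d m) -
              ∑ i, (y i - (u (Sum.inr i) : ℝ) / u0) * ((a i : ℝ) / q) ^ m| with hD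
        have hD0 : 0 ≤ D := abs_nonneg _
        have h8 : D ≤ ((g m : ℝ) ^ 2 * R m) ^ r * (g m * D) := by
          have h9 : (1 : ℝ) ≤ ((g m : ℝ) ^ 2 * R m) ^ r := by
            apply one_le_pow₀
            nlinarith
          calc D = 1 * (1 * D) := by ring
            _ ≤ ((g m : ℝ) ^ 2 * R m) ^ r * (g m * D) := by gcongr
        linarith)
    obtain ⟨m₀, hm₀⟩ := hinf₂.nonempty
    have hR₀ : 1 ≤ R₀ := by have := hR1 m₀ hm₀.1.1; have := hm₀.2.1; omega
    have hd₀ : 1 ≤ d₀ := by have := hd1 m₀ hm₀.1.1; have := hm₀.2.2; omega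
    have h1 := hrel ⟨0, hr⟩
    have h2 := hratne R₀ d₀ hR₀ hd₀ ⟨0, hr⟩
    set i₀ : Fin r := ⟨0, hr⟩ with hi₀
    apply hirr i₀
    refine ⟨(-((u (Sum.inr i₀) : ℚ) / u0) - R₀ * ((a i₀ : ℚ) / q) ^ d₀ * ((u (Sum.inl i₀) : ℚ) / u0)) /
      (R₀ * ((a i₀ : ℚ) / q) ^ d₀ - 1), ?_⟩
    push_cast
    rw [div_eq_iff h2.ne']
    linear_combination (-1 : ℝ) * h1

end Pool.Agent.H607.Uni
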