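import Pool.Agent.H607.Uni.Main
import Pool.Agent.H607.Uni.Dio2
import Mathlib

/-!
# The family of the sequences `∑ y_i β_i^n`, and the chain of multipliers for all of them
-/

set_option autoImplicit false

namespace Pool.Agent.H607.Uni

open Finset Filter Topology MeasureTheory
open Pool.Agent.W206.ND (ee)
open Pool.Agent.H607 Pool.Agent.H607.Mix
open Pool.Agent.H607.Pw (Equid equid_of_weyl)

/-- the index set of the family -/
structure Idx where
  r : ℕ
  a : Fin r → ℕ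
  q : ℕ
  y : Fin r → {x : ℝ // IsAlgebraic ℚ x}
  hr : 1 ≤ r
  hq : 1 ≤ q
  haq : ∀ i, q < a i
  hinj : Function.Injective a
  hirr : ∀ i, Irrational (y i : ℝ)

instance : Countable Idx := by
  have : Countable {x : ℝ // IsAlgebraic ℚ x} := (Algebraic.countable ℚ ℝ).to_subtype
  have h1 : Function.Injective (fun τ : Idx =>
      (⟨τ.r, τ.a, τ.q, τ.y⟩ : Σ r : ℕ, (Fin r → ℕ) × ℕ × (Fin r → {x : ℝ // IsAlgebraic ℚ x}))) := by
    rintro ⟨r, a, q, y, _, _, _, _, _⟩ ⟨r', a', q', y', _, _, _, _, _⟩ h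
    simp only [Sigma.mk.injEq] at h
    obtain ⟨h2, h3⟩ := h
    subst h2
    simp only [heq_eq_eq, Prod.mk.injEq] at h3
    obtain ⟨h4, h5, h6⟩ := h3
    subst h4 h5 h6
    rfl
  exact h1.countable

/-- the sequence -/
noncomputable def Idx.t (τ : Idx) (n : ℕ) : ℝ := TT τ.a τ.q (fun i => (τ.y i : ℝ)) n

lemma Idx.exists_η (τ : Idx) : ∃ η : ℝ, 0 < η ∧ η ≤ 1 ∧ DA τ.t τ.r η ∧ DB τ.t τ.r η := by
  obtain ⟨η, h1, h2, h3⟩ := exists_eta (fun i => (τ.a i : ℝ) / τ.q) (beta_gt τ.hq τ.haq)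
  refine ⟨η, h1, h2, ?_, ?_⟩
  · intro ε hε
    exact dio1 τ.hr τ.hq τ.haq τ.hinj (fun i => (τ.y i : ℝ)) (fun i => (τ.y i).2) τ.hirr h1.le hε
  · intro ε hε
    exact dio2 τ.hr τ.hq τ.haq τ.hinj (fun i => (τ.y i : ℝ)) (fun i => (τ.y i).2) τ.hirr h1 h2 h3 hε

/-- the common denominator -/
lemma common_den {r : ℕ} (β : Fin r → ℚ) (hβ : ∀ i, 1 < β i) (hinj : Function.Injective β) :
    ∃ (q : ℕ) (a : Fin r → ℕ), 1 ≤ q ∧ (∀ i, q < a i) ∧ Function.Injective a ∧
      ∀ i, ((β i : ℚ) : ℝ) = (a i : ℝ) / q := by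
  classical
  set q : ℕ := ∏ i, (β i).den with hq
  have hq1 : 1 ≤ q := Finset.one_le_prod' fun i _ => (β i).den_pos
  have hq0 : (0 : ℚ) < q := by exact_mod_cast hq1
  have h1 : ∀ i, ∃ a : ℕ, (a : ℚ) = β i * q := by
    intro i
    have h2 : (β i).den ∣ q := dvd_prod_of_mem (fun i => (β i).den) (mem_univ i)
    obtain ⟨c, hc⟩ := h2
    refine ⟨(β i).num.toNat * c, ?_⟩
    have h3 : 0 ≤ (β i).num := Rat.num_nonneg.2 (by linarith [hβ i])
    have h4 : (((β i).num.toNat : ℕ) : ℚ) = (β i).num := by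
      have : (((β i).num.toNat : ℕ) : ℤ) = (β i).num := Int.toNat_of_nonneg h3
      exact_mod_cast this
    rw [hc]
    push_cast
    rw [h4]
    have h5 : (β i) * (β i).den = (β i).num := Rat.mul_den_eq_num _
    rw [← h5]
    ring
  choose a ha using h1
  have ha' : ∀ i, (β i : ℚ) = (a i : ℚ) / q := fun i => by rw [ha]; field_simp
  refine ⟨q, a, hq1, fun i => ?_, fun i j hij => hinj ?_, fun i => ?_⟩
  · have h2 : (q : ℚ) < a i := by
      rw [ha]
      have := hβ i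
      nlinarith
    exact_mod_cast h2
  · rw [ha', ha', hij]
  · have h2 := ha' i
    rw [h2]
    push_cast
    rfl

/-- the equidistribution of the tuples -/
lemma equid_of_idx (c : ℕ → ℕ)
    (h : ∀ τ : Idx, Tendsto (fun N : ℕ => SS (fun n => τ.t n * ∏ i ∈ range n, (c i : ℝ)) N / (N : ℂ)) atTop (𝓝 0))
    {r k : ℕ} (β : Fin r → ℚ) (hβ : ∀ i, 1 < β i) (hinj : Function.Injective β) (x : Fin r → Fin k → ℝ)
    (hx : ∀ i j, IsAlgebraic ℚ (x i j))
    (hlin : ∀ i, LinearIndependent ℚ (Fin.cons 1 (x i) : Fin (k + 1) → ℝ)) :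
    Equid (fun n (p : Fin r × Fin k) => x p.1 p.2 * ((β p.1 : ℚ) : ℝ) ^ n * ∏ i ∈ range n, (c i : ℝ)) := by
  classical
  apply equid_of_weyl
  intro g hg
  obtain ⟨q, a, hq, haq, hainj, hab⟩ := common_den β hβ hinj
  -- the nonzero coefficients
  set y : Fin r → ℝ := fun i => ∑ j, (g (i, j) : ℝ) * x i j with hy
  have hyalg : ∀ i, IsAlgebraic ℚ (y i) := by
    intro i
    refine Finset.sum_induction _ (fun z => IsAlgebraic ℚ z) (fun _ _ ha hb => ha.add hb)
      isAlgebraic_zero fun j _ => ?_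
    exact IsAlgebraic.mul (isAlgebraic_intCast _) (hx i j)
  have hyirr : ∀ i, (∃ j, g (i, j) ≠ 0) → Irrational (y i) := by
    intro i hi
    rintro ⟨w, hw⟩
    have h1 := hlin i
    rw [Fintype.linearIndependent_iff] at h1
    have h2 := h1 (Fin.cons (-w) fun j => (g (i, j) : ℚ)) (by
      rw [Fin.sum_univ_succ]
      simp only [Fin.cons_zero, Fin.cons_succ, Rat.smul_def, Rat.cast_neg, Rat.cast_intCast, mul_one]
      rw [hw]
      ring)
    obtain ⟨j, hj⟩ := hi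
    apply hj
    have h3 := h2 j.succ
    rw [Fin.cons_succ] at h3
    exact_mod_cast h3
  have hy0 : ∀ i, ¬ (∃ j, g (i, j) ≠ 0) → y i = 0 := by
    intro i hi
    push Not at hi
    rw [hy]
    exact sum_eq_zero fun j _ => by rw [hi j, Int.cast_zero, zero_mul]
  set I : Type := {i : Fin r // ∃ j, g (i, j) ≠ 0} with hI
  set e : I ≃ Fin (Fintype.card I) := Fintype.equivFin I with he
  have hcard : 1 ≤ Fintype.card I := by
    obtain ⟨p, hp⟩ := Function.ne_iff.1 hg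
    exact Fintype.card_pos_iff.2 ⟨⟨p.1, p.2, hp⟩⟩
  set τ : Idx := ⟨Fintype.card I, fun i => a (e.symm i).1, q, fun i => ⟨y (e.symm i).1, hyalg _⟩, hcard, hq,
    fun i => haq _, fun i j hij => e.symm.injective (Subtype.ext (hainj hij)),
    fun i => hyirr _ (e.symm i).2⟩ with hτ
  have ht : ∀ n, τ.t n = ∑ i, y i * ((β i : ℚ) : ℝ) ^ n := by
    intro n
    have h1 : τ.t n = ∑ i : Fin (Fintype.card I), y (e.symm i).1 * ((a (e.symm i).1 : ℝ) / q) ^ n := rfl
    rw [h1, e.symm.sum_comp (fun i : I => y i.1 * ((a i.1 : ℝ) / q) ^ n)]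
    have h2 : ∑ i : Fin r, y i * ((β i : ℚ) : ℝ) ^ n =
        ∑ i ∈ univ.filter (fun i : Fin r => ∃ j, g (i, j) ≠ 0), y i * ((β i : ℚ) : ℝ) ^ n := by
      rw [sum_filter]
      refine sum_congr rfl fun i _ => ?_
      split_ifs with h3
      · rfl
      · rw [hy0 i h3, zero_mul]
    rw [h2]
    have h3 : ∑ i ∈ univ.filter (fun i : Fin r => ∃ j, g (i, j) ≠ 0), y i * ((β i : ℚ) : ℝ) ^ n =
        ∑ i : I, y i.1 * ((β i.1 : ℚ) : ℝ) ^ n :=
      Finset.sum_subtype _ (fun i => by simp) (fun i : Fin r => y i * ((β i : ℚ) : ℝ) ^ n)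
    rw [h3]
    refine sum_congr rfl fun i _ => ?_
    rw [hab]
  refine (h τ).congr fun N => ?_
  congr 2
  funext n
  rw [ht, Fintype.sum_prod_type, sum_mul]
  refine sum_congr rfl fun i _ => ?_
  rw [hy]
  beta_reduce
  rw [sum_mul, sum_mul]
  exact sum_congr rfl fun j _ => by ring

end Pool.Agent.H607.Uni
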