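import Pool.Agent.H607.Uni.Reg
import Pool.Agent.H607.Sp.Plan
import Mathlib

/-!
# The choice of the schedule
-/

set_option autoImplicit false

namespace Pool.Agent.H607.Uni

open Finset Filter Topology MeasureTheory
open Pool.Agent.W206.ND (ee)
open Pool.Agent.H607
open Pool.Agent.H607.Mix (Q)

theorem exists_sch (Φ : ℕ → ℕ) (hΦ : Tendsto Φ atTop atTop) :
    ∃ p : Sch, Tendsto p.v atTop atTop ∧ ∀ᶠ s in atTop, p.v s ^ 2 ≤ Φ s := by
  classical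
  have h1 : ∀ k : ℕ, ∃ t : ℕ, ∀ s, t ≤ s → (k + 1) ^ 2 ≤ Φ s := fun k =>
    eventually_atTop.1 (hΦ.eventually_ge_atTop ((k + 1) ^ 2))
  choose t ht using h1
  -- the thresholds
  obtain ⟨N, hN0, hNs⟩ : ∃ N : ℕ → ℕ, N 0 = 0 ∧ ∀ i, N (i + 1) = max (2 * N i + 2) (t (i + 1)) :=
    ⟨fun i => Nat.rec (motive := fun _ => ℕ) 0 (fun j a => max (2 * a + 2) (t (j + 1))) i, rfl,
      fun i => rfl⟩
  have hN2 : ∀ i, 2 * i ≤ N i := by
    intro i
    induction i with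
    | zero => rw [hN0]
    | succ i ih =>
      have := le_max_left (2 * N i + 2) (t (i + 1))
      rw [hNs]
      omega
  have hNt : ∀ i, 1 ≤ i → t i ≤ N i := by
    intro i hi
    obtain ⟨j, rfl⟩ : ∃ j, i = j + 1 := ⟨i - 1, by omega⟩
    rw [hNs]
    exact le_max_right _ _
  set v : ℕ → ℕ := fun s : ℕ => 1 + Nat.findGreatest (fun i : ℕ => N i ≤ s) s with hv
  have hspec : ∀ s : ℕ, N (Nat.findGreatest (fun i => N i ≤ s) s) ≤ s := by
    intro s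
    exact Nat.findGreatest_spec (P := fun i => N i ≤ s) (Nat.zero_le s) (by rw [hN0]; exact Nat.zero_le s)
  have hge : ∀ i s : ℕ, N i ≤ s → 1 + i ≤ v s := by
    intro i s h
    have h2 := hN2 i
    have := Nat.le_findGreatest (P := fun i => N i ≤ s) (m := i) (n := s) (by omega) h
    show 1 + i ≤ 1 + Nat.findGreatest (fun i => N i ≤ s) s
    omega
  refine ⟨⟨v, ?_, ?_, ?_, ?_⟩, ?_, ?_⟩
  · intro s s' h
    have h2 := hspec s
    exact hge _ s' (h2.trans h)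
  · intro s
    exact Nat.le_add_right 1 _
  · intro s hs
    have h2 := hspec s
    have h3 := hN2 (Nat.findGreatest (fun i => N i ≤ s) s)
    show 1 + Nat.findGreatest (fun i => N i ≤ s) s ≤ s
    omega
  · intro s
    set i := Nat.findGreatest (fun i : ℕ => N i ≤ s) s with hi
    have hvs : v s = 1 + i := rfl
    have h2 : N i ≤ s := hspec s
    rcases Nat.eq_zero_or_pos i with h0 | h0
    · have h3 := hge 0 (s / 2) (by rw [hN0]; exact Nat.zero_le _)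
      omega
    · obtain ⟨j, hj⟩ : ∃ j, i = j + 1 := ⟨i - 1, by omega⟩
      have h3 := hNs j
      rw [← hj] at h3
      have h4 := le_max_left (2 * N j + 2) (t i)
      have h5 := hge j (s / 2) (by omega)
      omega
  · show Tendsto v atTop atTop
    rw [tendsto_atTop_atTop]
    intro K
    exact ⟨N K, fun s hs => by have := hge K s hs; omega⟩
  · filter_upwards [eventually_ge_atTop (t 0)] with s hs
    show (v s) ^ 2 ≤ Φ s
    set i := Nat.findGreatest (fun i => N i ≤ s) s with hi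
    have hvs : v s = i + 1 := Nat.add_comm 1 i
    have h2 : N i ≤ s := hspec s
    rw [hvs]
    apply ht
    rcases Nat.eq_zero_or_pos i with h0 | h0
    · rw [h0]
      exact hs
    · exact (hNt i h0).trans h2

/-- the Diophantine properties of a sequence -/
def DA (t : ℕ → ℝ) (ρ : ℕ) (η : ℝ) : Prop :=
  ∀ ε : ℝ, 0 < ε → ∃ M : ℕ, ∀ m : ℕ, M ≤ m → ∀ g : ℕ, 1 ≤ g → Real.log g ≤ η * m → ∀ z : ℤ,
    Real.exp (-(ε * m)) ≤ (g : ℝ) ^ ρ * |g * t m - z|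

def DB (t : ℕ → ℝ) (ρ : ℕ) (η : ℝ) : Prop :=
  ∀ ε : ℝ, 0 < ε → ∃ M : ℕ, ∀ m : ℕ, M ≤ m → ∀ (g R d : ℕ), 1 ≤ g → 1 ≤ R → 1 ≤ d → Real.log g ≤ η * m →
    Real.log R ≤ η * m → (d : ℝ) ≤ η * m → ∀ z : ℤ,
    Real.exp (-(ε * m)) ≤ ((g : ℝ) ^ 2 * R) ^ ρ * |g * (t (m + d) * R - t m) - z|

/-- one schedule for countably many sequences -/
theorem common_sch (t : ℕ → ℕ → ℝ) (ρ : ℕ → ℕ) (η : ℕ → ℝ) (hA : ∀ k, DA (t k) (ρ k) (η k))
    (hB : ∀ k, DB (t k) (ρ k) (η k)) (Φ : ℕ → ℕ) (hΦ : Tendsto Φ atTop atTop) :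
    ∃ p : Sch, Tendsto p.v atTop atTop ∧ (∀ᶠ n : ℕ in atTop, p.v n.size ^ 2 ≤ Φ n + 1) ∧
      ∀ k, DioA p (t k) (ρ k) (η k) ∧ DioB p (t k) (ρ k) (η k) := by
  classical
  set P : ℕ → ℕ → Prop := fun K m => K ≤ Φ m ∧ ∀ k ≤ K,
    (∀ g : ℕ, 1 ≤ g → Real.log g ≤ η k * m → ∀ z : ℤ,
      Real.exp (-(1 / ((K : ℝ) + 1) * m)) ≤ (g : ℝ) ^ (ρ k) * |g * t k m - z|) ∧
    ∀ (g R d : ℕ), 1 ≤ g → 1 ≤ R → 1 ≤ d → Real.log g ≤ η k * m →
      Real.log R ≤ η k * m → (d : ℝ) ≤ η k * m → ∀ z : ℤ,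
      Real.exp (-(1 / ((K : ℝ) + 1) * m)) ≤ ((g : ℝ) ^ 2 * R) ^ (ρ k) * |g * (t k (m + d) * R - t k m) - z|
    with hP
  have hPK : ∀ K, ∀ᶠ m in atTop, P K m := by
    intro K
    refine (hΦ.eventually_ge_atTop K).and ?_
    have h1 : ∀ k ∈ range (K + 1), ∀ᶠ m : ℕ in atTop,
        (∀ g : ℕ, 1 ≤ g → Real.log g ≤ η k * m → ∀ z : ℤ,
          Real.exp (-(1 / ((K : ℝ) + 1) * m)) ≤ (g : ℝ) ^ (ρ k) * |g * t k m - z|) ∧
        ∀ (g R d : ℕ), 1 ≤ g → 1 ≤ R → 1 ≤ d → Real.log g ≤ η k * m →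
          Real.log R ≤ η k * m → (d : ℝ) ≤ η k * m → ∀ z : ℤ,
          Real.exp (-(1 / ((K : ℝ) + 1) * m)) ≤ ((g : ℝ) ^ 2 * R) ^ (ρ k) * |g * (t k (m + d) * R - t k m) - z| := by
      intro k _
      obtain ⟨M₁, hM₁⟩ := hA k (1 / ((K : ℝ) + 1)) (by positivity)
      obtain ⟨M₂, hM₂⟩ := hB k (1 / ((K : ℝ) + 1)) (by positivity)
      filter_upwards [eventually_ge_atTop M₁, eventually_ge_atTop M₂] with m h1 h2
      exact ⟨hM₁ m h1, hM₂ m h2⟩
    rw [← Filter.eventually_all_finset] at h1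
    filter_upwards [h1] with m hm k hk
    exact hm k (mem_range.2 (by omega))
  obtain ⟨κ, hκ, _, hκR⟩ := Sp.diag (fun K s => ∀ m : ℕ, m.size = s → P K m) (by
    intro K
    obtain ⟨M, hM⟩ := eventually_atTop.1 (hPK K)
    filter_upwards [eventually_gt_atTop M.size] with s hs m hm
    apply hM
    by_contra hlt
    push Not at hlt
    have := Nat.size_le_size hlt.le
    omega)
  obtain ⟨p, hp, hpv⟩ := exists_sch (fun s => κ s + 1)
    (tendsto_atTop_mono (fun s => Nat.le_succ (κ s)) hκ)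
  have hev : ∀ᶠ m : ℕ in atTop, P (κ m.size) m ∧ p.v m.size ^ 2 ≤ κ m.size + 1 := by
    filter_upwards [size_tendsto.eventually hκR, size_tendsto.eventually hpv] with m h1 h2
    exact ⟨h1 m rfl, h2⟩
  have hexp : ∀ m : ℕ, p.v m.size ^ 2 ≤ κ m.size + 1 →
      Real.exp (-(m / (p.v m.size : ℝ) ^ 2)) ≤ Real.exp (-(1 / ((κ m.size : ℝ) + 1) * m)) := by
    intro m hm
    apply Real.exp_le_exp.2
    have h1 : ((p.v m.size : ℝ)) ^ 2 ≤ (κ m.size : ℝ) + 1 := by exact_mod_cast hm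
    have h2 : (1 : ℝ) ≤ p.v m.size := by exact_mod_cast p.one _
    have h3 : (1 : ℝ) / ((κ m.size : ℝ) + 1) * m ≤ m / (p.v m.size : ℝ) ^ 2 := by
      rw [div_mul_eq_mul_div, one_mul]
      gcongr
    linarith
  refine ⟨p, hp, ?_, fun k => ⟨?_, ?_⟩⟩
  · filter_upwards [hev] with m hm
    have := hm.1.1
    omega
  · filter_upwards [hev, size_tendsto.eventually (hκ.eventually_ge_atTop k)] with m hm hk g h1 h2 z
    exact (hexp m hm.2).trans ((hm.1.2 k hk).1 g h1 h2 z)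
  · filter_upwards [hev, size_tendsto.eventually (hκ.eventually_ge_atTop k)] with m hm hk g R d h1 h2 h3 h4 h5 h6 z
    exact (hexp m hm.2).trans ((hm.1.2 k hk).2 g R d h1 h2 h3 h4 h5 h6 z)

end Pool.Agent.H607.Uni
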