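import Pool.Agent.H607.Uni.Mass
import Pool.Agent.H607.Mix.Corr
import Mathlib

/-!
# The correlations of `t_n R_n`
-/

set_option autoImplicit false

namespace Pool.Agent.H607.Uni

open Finset Filter Topology MeasureTheory
open Pool.Agent.W206.ND (ee)
open Pool.Agent.H607
open Pool.Agent.H607.Mix (Q Q_meas sub Q_sub_subset Q_sub_disjoint)

variable (p : Sch)

/-- the quantity in the bilinear bound -/
lemma bound_exp (W₁ W₂ U₁ U₂ Γ : ℕ) (T L : ℝ) (h1 : 2 * (U₁ : ℝ) + 2 * U₂ - Γ ≤ -L)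
    (h2 : 2 * (U₁ : ℝ) - W₂ ≤ -L) (h3 : T - W₁ ≤ -L) :
    (1 / (2 : ℝ) ^ W₁) * (((2 ^ (W₁ + 2 * U₁) : ℕ) : ℝ) *
      (((2 ^ (W₂ + 2 * U₂) / (2 ^ Γ + 1) + 1 : ℕ) : ℝ) * (1 / (2 : ℝ) ^ W₂)) +
      1 / (2 : ℝ) ^ (-T)) ≤ 3 * (2 : ℝ) ^ (-L) := by
  have h2p : (0 : ℝ) < 2 := by norm_num
  have hpow : ∀ n : ℕ, (2 : ℝ) ^ n = (2 : ℝ) ^ (n : ℝ) := fun n => (Real.rpow_natCast 2 n).symm
  have hdiv : ((2 ^ (W₂ + 2 * U₂) / (2 ^ Γ + 1) + 1 : ℕ) : ℝ) ≤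
      (2 : ℝ) ^ ((W₂ : ℝ) + 2 * U₂) / (2 : ℝ) ^ (Γ : ℝ) + 1 := by
    push_cast
    have h4 : ((2 ^ (W₂ + 2 * U₂) / (2 ^ Γ + 1) : ℕ) : ℝ) ≤
        ((2 ^ (W₂ + 2 * U₂) : ℕ) : ℝ) / ((2 ^ Γ + 1 : ℕ) : ℝ) := Nat.cast_div_le
    have h5 : ((2 ^ (W₂ + 2 * U₂) : ℕ) : ℝ) / ((2 ^ Γ + 1 : ℕ) : ℝ) ≤
        (2 : ℝ) ^ ((W₂ : ℝ) + 2 * U₂) / (2 : ℝ) ^ (Γ : ℝ) := by
      have e0 : ((2 ^ (W₂ + 2 * U₂) : ℕ) : ℝ) = (2 : ℝ) ^ ((W₂ : ℝ) + 2 * U₂) := by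
        rw [Nat.cast_pow, Nat.cast_ofNat, hpow]
        push_cast
        rfl
      rw [e0, Real.rpow_natCast]
      push_cast
      gcongr
      linarith
    have h6 := h4.trans h5
    push_cast at h6
    linarith
  have e1 : ∀ n : ℕ, (1 / (2 : ℝ) ^ n) = (2 : ℝ) ^ (-(n : ℝ)) := by
    intro n
    rw [hpow, Real.rpow_neg h2p.le, one_div]
  have e2 : ((2 ^ (W₁ + 2 * U₁) : ℕ) : ℝ) = (2 : ℝ) ^ ((W₁ : ℝ) + 2 * U₁) := by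
    rw [Nat.cast_pow, Nat.cast_ofNat, hpow]
    push_cast
    rfl
  have e4 : 1 / (2 : ℝ) ^ (-T) = (2 : ℝ) ^ T := by
    rw [Real.rpow_neg h2p.le, one_div, inv_inv]
  rw [e1, e1, e2, e4]
  calc (2 : ℝ) ^ (-(W₁ : ℝ)) * ((2 : ℝ) ^ ((W₁ : ℝ) + 2 * U₁) *
      (((2 ^ (W₂ + 2 * U₂) / (2 ^ Γ + 1) + 1 : ℕ) : ℝ) * (2 : ℝ) ^ (-(W₂ : ℝ))) + (2 : ℝ) ^ T) ≤
      (2 : ℝ) ^ (-(W₁ : ℝ)) * ((2 : ℝ) ^ ((W₁ : ℝ) + 2 * U₁) *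
      (((2 : ℝ) ^ ((W₂ : ℝ) + 2 * U₂) / (2 : ℝ) ^ (Γ : ℝ) + 1) * (2 : ℝ) ^ (-(W₂ : ℝ))) +
        (2 : ℝ) ^ T) := by gcongr
    _ = (2 : ℝ) ^ (2 * (U₁ : ℝ) + 2 * U₂ - Γ) + (2 : ℝ) ^ (2 * (U₁ : ℝ) - W₂) +
        (2 : ℝ) ^ (T - W₁) := by
        have f1 : (2 : ℝ) ^ (2 * (U₁ : ℝ) + 2 * U₂ - Γ) = (2 : ℝ) ^ (-(W₁ : ℝ)) *
            (2 : ℝ) ^ ((W₁ : ℝ) + 2 * U₁) * (2 : ℝ) ^ ((W₂ : ℝ) + 2 * U₂) * (2 : ℝ) ^ (-(Γ : ℝ)) *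
            (2 : ℝ) ^ (-(W₂ : ℝ)) := by
          rw [← Real.rpow_add h2p, ← Real.rpow_add h2p, ← Real.rpow_add h2p, ← Real.rpow_add h2p]
          congr 1
          ring
        have f2 : (2 : ℝ) ^ (2 * (U₁ : ℝ) - W₂) = (2 : ℝ) ^ (-(W₁ : ℝ)) *
            (2 : ℝ) ^ ((W₁ : ℝ) + 2 * U₁) * (2 : ℝ) ^ (-(W₂ : ℝ)) := by
          rw [← Real.rpow_add h2p, ← Real.rpow_add h2p]
          congr 1
          ring
        have f3 : (2 : ℝ) ^ (T - W₁) = (2 : ℝ) ^ (-(W₁ : ℝ)) * (2 : ℝ) ^ T := by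
          rw [← Real.rpow_add h2p]
          congr 1
          ring
        rw [f1, f2, f3, div_eq_mul_inv, ← Real.rpow_neg h2p.le]
        ring
    _ ≤ (2 : ℝ) ^ (-L) + (2 : ℝ) ^ (-L) + (2 : ℝ) ^ (-L) := by
        gcongr <;> norm_num
    _ = 3 * (2 : ℝ) ^ (-L) := by ring

/-- the multiplier -/
noncomputable def RR (n : ℕ) (ω : ∀ i, Fin (wt p i)) : ℕ := Q (wt p) (fac p) (E p 0 n) ω

lemma RR_meas (n : ℕ) : Measurable (RR p n) := Q_meas (wt p) (fac p) (E p 0 n)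

/-- the correlation function -/
noncomputable def cf (t : ℕ → ℝ) (n n' : ℕ) (ω : ∀ i, Fin (wt p i)) : ℂ :=
  ee (t n' * (RR p n' ω : ℕ) - t n * (RR p n ω : ℕ))

lemma cf_meas (t : ℕ → ℝ) (n n' : ℕ) : Measurable (cf p t n n') := by
  unfold cf
  refine ee_continuous.measurable.comp ?_
  exact (((measurable_from_nat (f := fun k : ℕ => (k : ℝ))).comp (RR_meas p n')).const_mul (t n')).sub
    (((measurable_from_nat (f := fun k : ℕ => (k : ℝ))).comp (RR_meas p n)).const_mul (t n))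

lemma cf_norm (t : ℕ → ℝ) (n n' : ℕ) (ω : ∀ i, Fin (wt p i)) : ‖cf p t n n' ω‖ ≤ 1 := by
  unfold cf
  rw [ee_norm]

/-- the general form of the bounds -/
lemma corr_gen (t : ℕ → ℝ) (n n' a₁ c₁ a₂ c₂ Γ : ℕ)
    (ψ : (∀ i, Fin (wt p i)) → (∀ i, Fin (wt p i)) → ℂ) (hψ : ∀ u ω, ‖ψ u ω‖ ≤ 1)
    (φ : (∀ i, Fin (wt p i)) → ℝ)
    (hsub : ∀ ω u v, cf p t n n' (sub (wt p) (E p a₁ c₁) u (sub (wt p) (E p a₂ c₂) v ω)) =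
      ψ u ω * ee (φ ω * Q (wt p) (fac p) (E p a₁ c₁) u * Q (wt p) (fac p) (E p a₂ c₂) v))
    (T L : ℝ) (hφ : ∀ ω, ∀ g : ℕ, 1 ≤ g → g ≤ 2 ^ Γ → ∀ z : ℤ, (2 : ℝ) ^ (-T) ≤ |g * φ ω - z|)
    (h1 : 2 * (U p a₁ c₁ : ℝ) + 2 * U p a₂ c₂ - Γ ≤ -L)
    (h2 : 2 * (U p a₁ c₁ : ℝ) - W p a₂ c₂ ≤ -L) (h3 : T - W p a₁ c₁ ≤ -L) :
    ‖∫ ω, cf p t n n' ω ∂(unif (wt p))‖ ^ 2 ≤ 3 * (2 : ℝ) ^ (-L) := by
  have h := Mix.corr (wt p) (fac p) (E p a₁ c₁) (E p a₂ c₂) (fac_pos p)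
    (fun ω ω' h => inj p _ (E_exc p _ _) ω ω' h) (fun ω ω' h => inj p _ (E_exc p _ _) ω ω' h)
    (2 ^ (W p a₁ c₁ + 2 * U p a₁ c₁)) (2 ^ (W p a₂ c₂ + 2 * U p a₂ c₂)) (2 ^ Γ)
    (Q_le p a₁ c₁) (Q_le p a₂ c₂) (cf p t n n') (cf_meas p t n n') (cf_norm p t n n') ψ hψ φ hsub
    ((2 : ℝ) ^ (-T)) (by positivity) hφ
  rw [wt_prod, wt_prod] at h
  exact h.trans (bound_exp _ _ _ _ Γ T L h1 h2 h3)

/-- close indices: the random factors before both of them -/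
lemma corr_near (t : ℕ → ℝ) (n n' c Γ : ℕ) (hc : c ≤ n) (hn : n ≤ n') (T L : ℝ)
    (hφ : ∀ ω, ∀ g : ℕ, 1 ≤ g → g ≤ 2 ^ Γ → ∀ z : ℤ, (2 : ℝ) ^ (-T) ≤
      |g * (t n' * (Q (wt p) (fac p) (E p n n') ω : ℕ) - t n) - z|)
    (h1 : 2 * (U p c n : ℝ) + 2 * U p 0 c - Γ ≤ -L)
    (h2 : 2 * (U p c n : ℝ) - W p 0 c ≤ -L) (h3 : T - W p c n ≤ -L) :
    ‖∫ ω, cf p t n n' ω ∂(unif (wt p))‖ ^ 2 ≤ 3 * (2 : ℝ) ^ (-L) := by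
  refine corr_gen p t n n' c n 0 c Γ (fun _ _ => 1) (fun _ _ => by simp)
    (fun ω => t n' * (Q (wt p) (fac p) (E p n n') ω : ℕ) - t n) ?_ T L hφ h1 h2 h3
  intro ω u v
  have e1 : Q (wt p) (fac p) (E p 0 c) (sub (wt p) (E p c n) u (sub (wt p) (E p 0 c) v ω)) =
      Q (wt p) (fac p) (E p 0 c) v := by
    rw [Q_sub_disjoint _ _ (E_disj p), Q_sub_subset _ _ (Subset.refl _)]
  have e2 : Q (wt p) (fac p) (E p c n) (sub (wt p) (E p c n) u (sub (wt p) (E p 0 c) v ω)) =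
      Q (wt p) (fac p) (E p c n) u := Q_sub_subset _ _ (Subset.refl _) _ _
  have e3 : Q (wt p) (fac p) (E p n n') (sub (wt p) (E p c n) u (sub (wt p) (E p 0 c) v ω)) =
      Q (wt p) (fac p) (E p n n') ω := by
    rw [Q_sub_disjoint _ _ (E_disj p).symm, Q_sub_disjoint]
    unfold E
    rw [disjoint_left]
    intro i hi hi'
    rw [mem_filter, mem_Ico] at hi hi'
    omega
  unfold cf RR
  rw [Q_split p (Nat.zero_le n) hn, Q_split p (Nat.zero_le c) hc, e1, e2, e3, one_mul]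
  congr 1
  push_cast
  ring

/-- distant indices, two groups of random factors on both sides of the smaller index -/
lemma corr_mid (t : ℕ → ℝ) (n n' Γ : ℕ) (hn : n ≤ n') (T L : ℝ)
    (hφ : ∀ g : ℕ, 1 ≤ g → g ≤ 2 ^ Γ → ∀ z : ℤ, (2 : ℝ) ^ (-T) ≤ |g * t n' - z|)
    (h1 : 2 * (U p 0 n : ℝ) + 2 * U p n n' - Γ ≤ -L)
    (h2 : 2 * (U p 0 n : ℝ) - W p n n' ≤ -L) (h3 : T - W p 0 n ≤ -L) :
    ‖∫ ω, cf p t n n' ω ∂(unif (wt p))‖ ^ 2 ≤ 3 * (2 : ℝ) ^ (-L) := by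
  refine corr_gen p t n n' 0 n n n' Γ
    (fun u _ => ee (-(t n * (Q (wt p) (fac p) (E p 0 n) u : ℕ))))
    (fun _ _ => by rw [ee_norm]) (fun _ => t n') ?_ T L (fun _ => hφ) h1 h2 h3
  intro ω u v
  have e1 : Q (wt p) (fac p) (E p 0 n) (sub (wt p) (E p 0 n) u (sub (wt p) (E p n n') v ω)) =
      Q (wt p) (fac p) (E p 0 n) u := Q_sub_subset _ _ (Subset.refl _) _ _
  have e2 : Q (wt p) (fac p) (E p n n') (sub (wt p) (E p 0 n) u (sub (wt p) (E p n n') v ω)) =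
      Q (wt p) (fac p) (E p n n') v := by
    rw [Q_sub_disjoint _ _ (E_disj p).symm, Q_sub_subset _ _ (Subset.refl _)]
  unfold cf RR
  rw [Q_split p (Nat.zero_le n) hn, e1, e2, ← ee_add]
  congr 1
  push_cast
  ring

/-- distant indices, both groups of random factors between them -/
lemma corr_far (t : ℕ → ℝ) (n n' c Γ : ℕ) (hc : n ≤ c) (hn : c ≤ n') (T L : ℝ)
    (hφ : ∀ ω, ∀ g : ℕ, 1 ≤ g → g ≤ 2 ^ Γ → ∀ z : ℤ, (2 : ℝ) ^ (-T) ≤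
      |g * (t n' * (Q (wt p) (fac p) (E p 0 n) ω : ℕ)) - z|)
    (h1 : 2 * (U p c n' : ℝ) + 2 * U p n c - Γ ≤ -L)
    (h2 : 2 * (U p c n' : ℝ) - W p n c ≤ -L) (h3 : T - W p c n' ≤ -L) :
    ‖∫ ω, cf p t n n' ω ∂(unif (wt p))‖ ^ 2 ≤ 3 * (2 : ℝ) ^ (-L) := by
  refine corr_gen p t n n' c n' n c Γ
    (fun _ ω => ee (-(t n * (Q (wt p) (fac p) (E p 0 n) ω : ℕ))))
    (fun _ _ => by rw [ee_norm])
    (fun ω => t n' * (Q (wt p) (fac p) (E p 0 n) ω : ℕ)) ?_ T L hφ h1 h2 h3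
  intro ω u v
  have d1 : Disjoint (E p 0 n) (E p c n') := by
    unfold E
    rw [disjoint_left]
    intro i hi hi'
    rw [mem_filter, mem_Ico] at hi hi'
    omega
  have e1 : Q (wt p) (fac p) (E p 0 n) (sub (wt p) (E p c n') u (sub (wt p) (E p n c) v ω)) =
      Q (wt p) (fac p) (E p 0 n) ω := by
    rw [Q_sub_disjoint _ _ d1, Q_sub_disjoint _ _ (E_disj p)]
  have e2 : Q (wt p) (fac p) (E p n c) (sub (wt p) (E p c n') u (sub (wt p) (E p n c) v ω)) =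
      Q (wt p) (fac p) (E p n c) v := by
    rw [Q_sub_disjoint _ _ (E_disj p), Q_sub_subset _ _ (Subset.refl _)]
  have e3 : Q (wt p) (fac p) (E p c n') (sub (wt p) (E p c n') u (sub (wt p) (E p n c) v ω)) =
      Q (wt p) (fac p) (E p c n') u := Q_sub_subset _ _ (Subset.refl _) _ _
  unfold cf RR
  rw [Q_split p (Nat.zero_le n) (hc.trans hn), Q_split p hc hn, e1, e2, e3, ← ee_add]
  congr 1
  push_cast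
  ring

end Pool.Agent.H607.Uni
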