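import Pool.Agent.H607.Uni.Corr
import Mathlib

/-!
# The number of the exceptional places and the size of the products
-/

set_option autoImplicit false

namespace Pool.Agent.H607.Uni

open Finset Filter Topology

variable (p : Sch)

lemma two_pow_size_le {N : ℕ} (hN : 1 ≤ N) : (2 : ℝ) ^ N.size / 2 ≤ N := by
  have hs1 : 1 ≤ N.size := by
    have := Nat.size_pos.2 (show 0 < N by omega)
    omega
  have h2 : 2 ^ (N.size - 1) ≤ N := Nat.lt_size.1 (by omega)
  have h3 : 2 ^ N.size = 2 * 2 ^ (N.size - 1) := by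
    rw [← pow_succ']
    congr 1
    omega
  have h4 : ((2 ^ N.size : ℕ) : ℝ) = ((2 * 2 ^ (N.size - 1) : ℕ) : ℝ) := by rw [h3]
  have h5 : ((2 ^ (N.size - 1) : ℕ) : ℝ) ≤ N := by exact_mod_cast h2
  push_cast at h4 h5
  linarith

lemma card_size (N : ℕ) : ((E p 0 N).card : ℝ) * N.size ≤ 2 ^ (N.size / 2) * N.size + 2 * U p 0 N := by
  classical
  set s := N.size with hs
  have h1 : E p 0 N ⊆ range (2 ^ (s / 2)) ∪ (E p 0 N).filter (fun i => 2 ^ (s / 2) ≤ i) := by
    intro i hi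
    rw [mem_union, mem_range, mem_filter]
    rcases lt_or_ge i (2 ^ (s / 2)) with h | h
    · exact Or.inl h
    · exact Or.inr ⟨hi, h⟩
  have h2 := (card_le_card h1).trans (card_union_le _ _)
  rw [card_range] at h2
  have h4 : (((E p 0 N).filter (fun i => 2 ^ (s / 2) ≤ i)).card : ℝ) * (s / 2) ≤ U p 0 N := by
    unfold U
    push_cast
    calc (((E p 0 N).filter (fun i => 2 ^ (s / 2) ≤ i)).card : ℝ) * (s / 2) =
        ∑ i ∈ (E p 0 N).filter (fun i => 2 ^ (s / 2) ≤ i), ((s : ℝ) / 2) := by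
          rw [sum_const, nsmul_eq_mul]
      _ ≤ ∑ i ∈ (E p 0 N).filter (fun i => 2 ^ (s / 2) ≤ i), (i.size : ℝ) := by
          refine sum_le_sum fun i hi => ?_
          have hi2 := (mem_filter.1 hi).2
          have h5 : s / 2 < i.size := Nat.lt_size.2 hi2
          have h6 : s ≤ 2 * i.size := by omega
          have h7 : (s : ℝ) ≤ 2 * i.size := by exact_mod_cast h6
          linarith
      _ ≤ ∑ i ∈ E p 0 N, (i.size : ℝ) :=
          sum_le_sum_of_subset_of_nonneg (filter_subset _ _) fun i _ _ => Nat.cast_nonneg _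
  have h6 : ((E p 0 N).card : ℝ) ≤ (2 : ℝ) ^ (s / 2) + ((E p 0 N).filter (fun i => 2 ^ (s / 2) ≤ i)).card := by
    exact_mod_cast h2
  have h0 : (0 : ℝ) ≤ s := Nat.cast_nonneg s
  nlinarith

/-- few exceptional places -/
theorem few_exc (hv : Tendsto p.v atTop atTop) {ε : ℝ} (hε : 0 < ε) :
    ∀ᶠ N : ℕ in atTop, ((E p 0 N).card : ℝ) ≤ ε * N / Real.log N := by
  have hvN : Tendsto (fun N : ℕ => (p.v N.size : ℝ)) atTop atTop :=
    tendsto_natCast_atTop_atTop.comp (hv.comp size_tendsto)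
  filter_upwards [size_tendsto.eventually (poly_small (8 / ε)), er_small p (8 / ε),
    hvN.eventually_ge_atTop (max 1 (32 / ε)), eventually_ge_atTop 2] with N h1 h2 h3 hN
  have hN2 : (2 : ℝ) ≤ N := by exact_mod_cast hN
  have hlog : 0 < Real.log N := Real.log_pos (by linarith)
  have hs1 : 1 ≤ N.size := by
    have := Nat.size_pos.2 (show 0 < N by omega)
    omega
  have hsR : (1 : ℝ) ≤ N.size := by exact_mod_cast hs1
  have hv1 : (1 : ℝ) ≤ p.v N.size := (le_max_left _ _).trans h3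
  have hv2 : 32 / ε ≤ (p.v N.size : ℝ) := (le_max_right _ _).trans h3
  have hlogs : Real.log N ≤ N.size := by
    have h4 : (N : ℝ) ≤ 2 ^ N.size := by exact_mod_cast (Nat.lt_size_self N).le
    have h5 := Real.log_le_log (by linarith) h4
    rw [Real.log_pow] at h5
    have := Real.log_two_lt_d9
    nlinarith
  have hp2 := two_pow_size_le (show 1 ≤ N by omega)
  -- the first term
  have e1 : (2 : ℝ) ^ (N.size / 2) * N.size ≤ ε / 8 * N := by
    have h4 : (2 : ℝ) ^ (N.size / 2) * N.size ≤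
        (256 + 2 * ((N.size : ℝ) * (N.size : ℝ) ^ 2) + 2 ^ (N.size / 2)) * (N.size : ℝ) ^ 2 := by
      have h5 : (0 : ℝ) ≤ 256 + 2 * ((N.size : ℝ) * (N.size : ℝ) ^ 2) := by positivity
      have h6 : (N.size : ℝ) ≤ (N.size : ℝ) ^ 2 := by nlinarith
      have h7 : (0 : ℝ) < 2 ^ (N.size / 2) := by positivity
      calc (2 : ℝ) ^ (N.size / 2) * N.size ≤ 2 ^ (N.size / 2) * (N.size : ℝ) ^ 2 := by gcongr
        _ ≤ _ := by
          apply mul_le_mul_of_nonneg_right _ (by positivity)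
          linarith
    have h5 : 8 / ε * ((2 : ℝ) ^ (N.size / 2) * N.size) ≤ N :=
      (mul_le_mul_of_nonneg_left h4 (by positivity)).trans (h1.trans hp2)
    calc (2 : ℝ) ^ (N.size / 2) * N.size = ε / 8 * (8 / ε * ((2 : ℝ) ^ (N.size / 2) * N.size)) := by
          field_simp
      _ ≤ ε / 8 * N := by gcongr
  -- the error
  have e2 : er p N ≤ ε / 8 * N := by
    have h0 := er_pos p N
    have h4 : er p N ≤ er p N * (p.v N.size : ℝ) ^ 2 := by
      have h5 : (1 : ℝ) ≤ (p.v N.size : ℝ) ^ 2 := by nlinarith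
      nlinarith
    calc er p N ≤ er p N * (p.v N.size : ℝ) ^ 2 := h4
      _ = ε / 8 * (8 / ε * (er p N * (p.v N.size : ℝ) ^ 2)) := by field_simp
      _ ≤ ε / 8 * N := by gcongr
  have e3 : (4 : ℝ) * N / (p.v N.size : ℝ) ^ 2 ≤ ε / 8 * N := by
    rw [div_le_iff₀ (by positivity)]
    have h4 : 32 ≤ p.v N.size * ε := by rwa [div_le_iff₀ hε] at hv2
    have h5 : 32 ≤ (p.v N.size : ℝ) ^ 2 * ε := by nlinarith
    nlinarith
  have hb := (bounds p (Nat.zero_le N) le_rfl).2.2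
  rw [Nat.cast_zero, sub_zero] at hb
  have h5 := card_size p N
  have h6 : ((E p 0 N).card : ℝ) * N.size ≤ ε * N := by linarith
  rw [le_div_iff₀ hlog]
  have h7 : (0 : ℝ) ≤ (E p 0 N).card := Nat.cast_nonneg _
  nlinarith

/-- the product is small -/
theorem prod_small (hv : Tendsto p.v atTop atTop) {ε : ℝ} (hε : 0 < ε) :
    ∀ᶠ N : ℕ in atTop, ∀ ω, (RR p N ω : ℝ) ≤ Real.exp (ε * N) := by
  have hvN : Tendsto (fun N : ℕ => (p.v N.size : ℝ)) atTop atTop :=
    tendsto_natCast_atTop_atTop.comp (hv.comp size_tendsto)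
  filter_upwards [er_small p (6 / ε),
    hvN.eventually_ge_atTop (max 1 (20 / ε)), eventually_ge_atTop 2] with N h2 h3 hN ω
  have hN2 : (2 : ℝ) ≤ N := by exact_mod_cast hN
  have hv1 : (1 : ℝ) ≤ p.v N.size := (le_max_left _ _).trans h3
  have hv2 : 20 / ε ≤ (p.v N.size : ℝ) := (le_max_right _ _).trans h3
  have e2 : er p N ≤ ε / 6 * N := by
    have h0 := er_pos p N
    have h4 : er p N ≤ er p N * (p.v N.size : ℝ) ^ 2 := by
      have h5 : (1 : ℝ) ≤ (p.v N.size : ℝ) ^ 2 := by nlinarith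
      nlinarith
    calc er p N ≤ er p N * (p.v N.size : ℝ) ^ 2 := h4
      _ = ε / 6 * (6 / ε * (er p N * (p.v N.size : ℝ) ^ 2)) := by field_simp
      _ ≤ ε / 6 * N := by gcongr
  have hb := bounds p (Nat.zero_le N) le_rfl
  rw [Nat.cast_zero, sub_zero] at hb
  obtain ⟨_, hW, hU⟩ := hb
  have e3 : (2 : ℝ) * N / (p.v N.size : ℝ) + 2 * (4 * N / (p.v N.size : ℝ) ^ 2) ≤ ε / 2 * N := by
    have h5 : (4 : ℝ) * N / (p.v N.size : ℝ) ^ 2 ≤ 4 * N / (p.v N.size : ℝ) := by
      gcongr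
      nlinarith
    have h6 : (10 : ℝ) * N / (p.v N.size : ℝ) ≤ ε / 2 * N := by
      rw [div_le_iff₀ (by positivity)]
      have h4 : 20 ≤ p.v N.size * ε := by rwa [div_le_iff₀ hε] at hv2
      nlinarith
    have h7 : (2 : ℝ) * N / (p.v N.size : ℝ) + 2 * (4 * N / (p.v N.size : ℝ)) = 10 * N / (p.v N.size : ℝ) := by
      ring
    linarith
  have h8 : ((W p 0 N + 2 * U p 0 N : ℕ) : ℝ) ≤ ε * N := by
    push_cast
    linarith
  have h9 := Q_le p 0 N ω
  calc (RR p N ω : ℝ) ≤ ((2 ^ (W p 0 N + 2 * U p 0 N) : ℕ) : ℝ) := by exact_mod_cast h9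
    _ = 2 ^ (W p 0 N + 2 * U p 0 N) := by push_cast; rfl
    _ = Real.exp ((W p 0 N + 2 * U p 0 N : ℕ) * Real.log 2) := by
        rw [← Real.log_pow, Real.exp_log (by positivity)]
    _ ≤ Real.exp (ε * N) := by
        apply Real.exp_le_exp.2
        have h10 := Real.log_two_lt_d9
        have h11 : 0 < Real.log 2 := Real.log_pos (by norm_num)
        have h12 : (0 : ℝ) ≤ ((W p 0 N + 2 * U p 0 N : ℕ) : ℝ) := Nat.cast_nonneg _
        nlinarith

end Pool.Agent.H607.Uni
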