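import Pool.Agent.H607.Uni.Sub
import Pool.Agent.H607.Pw.Fam
import Pool.Agent.H607.Mix.Dio
import Mathlib

/-!
# The Diophantine properties of the sums `∑ y_i β_i^m`, `y_i` algebraic and irrational, `β_i > 1` rational
-/

set_option autoImplicit false

namespace Pool.Agent.H607.Uni

open Finset Filter Topology
open Pool.Agent.H607.Pw (dominating)

/-- the size of an exponential sum -/
lemma size_sum {r : ℕ} (β w : Fin r → ℝ) (hβ : ∀ i, 1 < β i) (hinj : Function.Injective β)
    (hne : ∃ i, w i ≠ 0) : ∃ i₀, w i₀ ≠ 0 ∧ ∃ c C : ℝ, 0 < c ∧ 0 < C ∧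
      (∀ n : ℕ, |∑ i, w i * β i ^ n| ≤ C * β i₀ ^ n) ∧ ∀ᶠ n : ℕ in atTop, c * β i₀ ^ n ≤ |∑ i, w i * β i ^ n| := by
  obtain ⟨i₀, hi₀, C₀, η, hη, hdom⟩ := dominating β w hβ hinj hne
  have hb0 : 0 < β i₀ := by linarith [hβ i₀]
  have hw0 : 0 < |w i₀| := abs_pos.2 hi₀
  refine ⟨i₀, hi₀, |w i₀| / 2, |w i₀| + |C₀|, by positivity, by positivity, ?_, ?_⟩
  · intro n
    have h1 := hdom n
    have hp : 0 < β i₀ ^ n := by positivity
    have h2 : C₀ * (β i₀ ^ n * Real.exp (-(η * n))) ≤ |C₀| * (β i₀ ^ n * 1) := by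
      have h3 : Real.exp (-(η * n)) ≤ 1 := by
        rw [Real.exp_le_one_iff]
        have : (0 : ℝ) ≤ n := Nat.cast_nonneg n
        nlinarith
      have h4 := le_abs_self C₀
      have h5 := Real.exp_pos (-(η * n))
      gcongr
    have h3 : |∑ i, w i * β i ^ n| ≤ |∑ i, w i * β i ^ n - w i₀ * β i₀ ^ n| + |w i₀ * β i₀ ^ n| := by
      have := abs_add_le (∑ i, w i * β i ^ n - w i₀ * β i₀ ^ n) (w i₀ * β i₀ ^ n)
      rwa [sub_add_cancel] at this
    rw [abs_mul, abs_of_pos hp] at h3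
    nlinarith
  · have h1 : Tendsto (fun n : ℕ => C₀ * Real.exp (-(η * n))) atTop (𝓝 (C₀ * 0)) := by
      apply Tendsto.const_mul
      apply Real.tendsto_exp_neg_atTop_nhds_zero.comp
      exact tendsto_natCast_atTop_atTop.const_mul_atTop hη
    rw [mul_zero] at h1
    filter_upwards [h1.eventually_le_const (show 0 < |w i₀| / 2 by positivity)] with n hn
    have h2 := hdom n
    have hp : 0 < β i₀ ^ n := by positivity
    have h3 : |w i₀ * β i₀ ^ n| ≤ |∑ i, w i * β i ^ n| + |∑ i, w i * β i ^ n - w i₀ * β i₀ ^ n| := by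
      have := abs_sub_abs_le_abs_sub (w i₀ * β i₀ ^ n) (∑ i, w i * β i ^ n)
      rw [abs_sub_comm (w i₀ * β i₀ ^ n)] at this
      linarith
    rw [abs_mul, abs_of_pos hp] at h3
    have h4 : C₀ * (β i₀ ^ n * Real.exp (-(η * n))) ≤ |w i₀| / 2 * β i₀ ^ n := by
      calc C₀ * (β i₀ ^ n * Real.exp (-(η * n))) = (C₀ * Real.exp (-(η * n))) * β i₀ ^ n := by ring
        _ ≤ _ := by gcongr
    linarith

lemma grow {r : ℕ} (β w : Fin r → ℝ) (hβ : ∀ i, 1 < β i) (hinj : Function.Injective β) (C : ℝ) {S : Set ℕ}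
    (hS : S.Infinite) (h : ∀ m ∈ S, |∑ i, w i * β i ^ m| ≤ C) : ∀ i, w i = 0 := by
  by_contra hcon
  push Not at hcon
  obtain ⟨i₀, hi₀, c, C', hc, _, _, hlow⟩ := size_sum β w hβ hinj hcon
  have h1 : Tendsto (fun n : ℕ => c * β i₀ ^ n) atTop atTop :=
    (tendsto_pow_atTop_atTop_of_one_lt (hβ i₀)).const_mul_atTop hc
  obtain ⟨M, hM⟩ := eventually_atTop.1 (hlow.and (h1.eventually_gt_atTop C))
  obtain ⟨m, hm, hmM⟩ := hS.exists_gt M
  obtain ⟨h2, h3⟩ := hM m hmM.le
  have h4 := h m hm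
  linarith

section

variable {r : ℕ} (a : Fin r → ℕ) (q : ℕ)

/-- the sequence -/
noncomputable def TT (y : Fin r → ℝ) (m : ℕ) : ℝ := ∑ i, y i * ((a i : ℝ) / q) ^ m

variable {a q}

lemma beta_gt (hq : 1 ≤ q) (haq : ∀ i, q < a i) (i : Fin r) : (1 : ℝ) < (a i : ℝ) / q := by
  have h1 : (0 : ℝ) < q := by exact_mod_cast hq
  rw [lt_div_iff₀ h1, one_mul]
  exact_mod_cast haq i

lemma beta_inj (hq : 1 ≤ q) (hinj : Function.Injective a) :
    Function.Injective (fun i => (a i : ℝ) / q) := by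
  have h1 : (0 : ℝ) < q := by exact_mod_cast hq
  intro i j h
  have h2 : (a i : ℝ) / q = (a j : ℝ) / q := h
  rw [div_left_inj' h1.ne'] at h2
  exact hinj (by exact_mod_cast h2)

theorem dio1 (hr : 1 ≤ r) (hq : 1 ≤ q) (haq : ∀ i, q < a i) (hinj : Function.Injective a)
    (y : Fin r → ℝ) (hy : ∀ i, IsAlgebraic ℚ (y i)) (hirr : ∀ i, Irrational (y i)) {c ε : ℝ} (hc : 0 ≤ c)
    (hε : 0 < ε) : ∃ M : ℕ, ∀ m, M ≤ m → ∀ g : ℕ, 1 ≤ g → Real.log g ≤ c * m → ∀ z : ℤ,
      Real.exp (-(ε * m)) ≤ (g : ℝ) ^ r * |g * TT a q y m - z| := by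
  classical
  by_contra hcon
  push Not at hcon
  have : Nonempty (Fin r) := ⟨⟨0, hr⟩⟩
  set S : Set ℕ := {m : ℕ | ∃ g : ℕ, 1 ≤ g ∧ Real.log g ≤ c * m ∧ ∃ z : ℤ,
    (g : ℝ) ^ r * |g * TT a q y m - z| < Real.exp (-(ε * m))} with hSdef
  have hS : S.Infinite := by
    rw [Set.infinite_iff_exists_gt]
    intro M
    obtain ⟨m, hm, g, hg, hgc, z, hz⟩ := hcon (M + 1)
    exact ⟨m, ⟨g, hg, hgc, z, hz⟩, by omega⟩
  choose! g hg1 hgc z hz using fun (m : ℕ) (hm : m ∈ S) => hm
  have hq0 : (0 : ℝ) < q := by exact_mod_cast hq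
  have hgR : ∀ m ∈ S, (1 : ℝ) ≤ g m := fun m hm => by exact_mod_cast hg1 m hm
  have hsum : ∀ m, ∀ w : Fin r → ℝ, ∑ i, w i * (g m * (a i : ℝ) ^ m) =
      (q : ℝ) ^ m * (g m * ∑ i, w i * ((a i : ℝ) / q) ^ m) := by
    intro m w
    rw [mul_sum, mul_sum]
    refine sum_congr rfl fun i _ => ?_
    rw [div_pow]
    field_simp
  obtain ⟨u0, u, hu, hinf⟩ := sub_gen y hy (ι := Unit) (fun _ => q) (fun _ => hq) (fun _ i => a i)
    (fun _ i => by have := haq i; omega) (fun m _ => m) (c + 1) ε (by positivity) hε (fun m _ => g m) z S hS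
    (fun m hm _ => hg1 m hm) (fun m hm _ => by
      have h1 := hgc m hm
      have h2 : (0 : ℝ) ≤ m := Nat.cast_nonneg m
      nlinarith) (fun m _ _ => by
      have h2 : (0 : ℝ) ≤ m := Nat.cast_nonneg m
      nlinarith) (by
      intro m hm
      simp only [univ_unique, prod_singleton]
      rw [hsum m y, prod_const, card_univ, Fintype.card_fin]
      have h1 := (hz m hm).le
      have h2 := hgR m hm
      have h3 : (q : ℝ) ^ m * (g m * ∑ i, y i * ((a i : ℝ) / q) ^ m) - z m * (q : ℝ) ^ m =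
          (q : ℝ) ^ m * (g m * TT a q y m - z m) := by
        unfold TT
        ring
      rw [h3, abs_mul, abs_of_pos (show (0 : ℝ) < (q : ℝ) ^ m by positivity), le_div_iff₀ (by positivity)]
      calc (q : ℝ) ^ m * |g m * TT a q y m - z m| * (g m : ℝ) ^ r =
          (q : ℝ) ^ m * ((g m : ℝ) ^ r * |g m * TT a q y m - z m|) := by ring
        _ ≤ (q : ℝ) ^ m * Real.exp (-(ε * m)) := by gcongr)
  simp only [univ_unique, prod_singleton] at hinf
  have hrel : ∀ m ∈ S, (u0 : ℝ) * (z m * (q : ℝ) ^ m) + ∑ i, (u i : ℝ) * (g m * (a i : ℝ) ^ m) = 0 →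
      (u0 : ℝ) * z m + g m * ∑ i, (u i : ℝ) * ((a i : ℝ) / q) ^ m = 0 := by
    intro m _ h
    rw [hsum m (fun i => (u i : ℝ))] at h
    have h1 : (q : ℝ) ^ m * ((u0 : ℝ) * z m + g m * ∑ i, (u i : ℝ) * ((a i : ℝ) / q) ^ m) = 0 := by
      linear_combination h
    exact (mul_eq_zero.1 h1).resolve_left (by positivity)
  have hβ := beta_gt hq haq
  have hβinj := beta_inj hq hinj
  by_cases hu0 : u0 = 0
  · have h1 := grow (fun i => (a i : ℝ) / q) (fun i => (u i : ℝ)) hβ hβinj 0 hinf (by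
      rintro m ⟨hm, h⟩
      have h2 := hrel m hm h
      rw [hu0, Int.cast_zero, zero_mul, zero_add] at h2
      have h3 := (mul_eq_zero.1 h2).resolve_left (by have := hgR m hm; positivity)
      rw [h3, abs_zero])
    rcases hu with h2 | h2
    · exact h2 hu0
    · apply h2
      funext i
      have := h1 i
      exact_mod_cast this
  · have hu0R : (u0 : ℝ) ≠ 0 := by exact_mod_cast hu0
    have h1 := grow (fun i => (a i : ℝ) / q) (fun i => y i + (u i : ℝ) / u0) hβ hβinj 1 hinf (by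
      rintro m ⟨hm, h⟩
      have h2 := hrel m hm h
      have h3 := hz m hm
      have h4 := hgR m hm
      have h5 : (z m : ℝ) = -(g m * ∑ i, ((u i : ℝ) / u0) * ((a i : ℝ) / q) ^ m) := by
        have h6 : ∑ i, (u i : ℝ) * ((a i : ℝ) / q) ^ m =
            u0 * ∑ i, ((u i : ℝ) / u0) * ((a i : ℝ) / q) ^ m := by
          rw [mul_sum]
          refine sum_congr rfl fun i _ => ?_
          field_simp
        rw [h6] at h2
        have h7 : (u0 : ℝ) * (z m + g m * ∑ i, ((u i : ℝ) / u0) * ((a i : ℝ) / q) ^ m) = 0 := by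
          linear_combination h2
        have h8 := (mul_eq_zero.1 h7).resolve_left hu0R
        linarith
      have h6 : (g m : ℝ) * TT a q y m - z m =
          g m * ∑ i, (y i + (u i : ℝ) / u0) * ((a i : ℝ) / q) ^ m := by
        rw [h5]
        unfold TT
        simp only [add_mul, sum_add_distrib]
        ring
      rw [h6, abs_mul, abs_of_pos (show (0 : ℝ) < (g m : ℝ) by linarith)] at h3
      have h7 : Real.exp (-(ε * m)) ≤ 1 := by
        rw [Real.exp_le_one_iff]
        have : (0 : ℝ) ≤ m := Nat.cast_nonneg m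
        nlinarith
      set D := |∑ i, (y i + (u i : ℝ) / u0) * ((a i : ℝ) / q) ^ m| with hD
      have hD0 : 0 ≤ D := abs_nonneg _
      have h8 : D ≤ (g m : ℝ) ^ r * (g m * D) := by
        have h9 : (1 : ℝ) ≤ (g m : ℝ) ^ r := one_le_pow₀ h4
        calc D = 1 * (1 * D) := by ring
          _ ≤ (g m : ℝ) ^ r * (g m * D) := by gcongr
      show D ≤ 1
      linarith)
    have h2 := h1 ⟨0, hr⟩
    apply hirr ⟨0, hr⟩
    refine ⟨-((u ⟨0, hr⟩ : ℚ) / u0), ?_⟩
    push_cast
    linarith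

/-- two exponential sums with a multiplier and a shift -/
lemma two_sums (β : Fin r → ℝ) (hβ : ∀ i, 1 < β i) (hinj : Function.Injective β) {η : ℝ} (hη : 0 < η)
    (hgap : ∀ i j, β i < β j → η + (1 + η) * Real.log (β i) < Real.log (β j))
    (A B : Fin r → ℝ) (hAB : (∃ i, A i ≠ 0) ∨ ∃ i, B i ≠ 0) (R d : ℕ → ℕ) {S : Set ℕ} (hS : S.Infinite)
    (hR : ∀ m ∈ S, 1 ≤ R m) (hRη : ∀ m ∈ S, Real.log (R m) ≤ η * m) (hdη : ∀ m ∈ S, (d m : ℝ) ≤ η * m)
    (h : ∀ m ∈ S, |R m * ∑ i, A i * β i ^ (m + d m) - ∑ i, B i * β i ^ m| ≤ 1) :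
    ∃ R₀ d₀ : ℕ, {m ∈ S | R m = R₀ ∧ d m = d₀}.Infinite ∧ ∀ i, R₀ * β i ^ d₀ * A i = B i := by
  classical
  -- the final step: bounded `R` and `d`
  have hfinal : ∀ K : ℕ, {m ∈ S | R m ≤ K ∧ d m ≤ K}.Infinite →
      ∃ R₀ d₀ : ℕ, {m ∈ S | R m = R₀ ∧ d m = d₀}.Infinite ∧ ∀ i, R₀ * β i ^ d₀ * A i = B i := by
    intro K hK
    have h1 : {m ∈ S | R m ≤ K ∧ d m ≤ K} ⊆
        ⋃ x ∈ ((range (K + 1) ×ˢ range (K + 1) : Finset (ℕ × ℕ)) : Set (ℕ × ℕ)),
          {m ∈ S | R m = x.1 ∧ d m = x.2} := by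
      rintro m ⟨hm, h2, h3⟩
      simp only [Set.mem_iUnion]
      exact ⟨(R m, d m), by simp; omega, hm, rfl, rfl⟩
    obtain ⟨x, _, hx⟩ : ∃ x ∈ ((range (K + 1) ×ˢ range (K + 1) : Finset (ℕ × ℕ)) : Set (ℕ × ℕ)),
        {m ∈ S | R m = x.1 ∧ d m = x.2}.Infinite := by
      by_contra hno
      push Not at hno
      refine hK (Set.Finite.subset (Set.Finite.biUnion (Finset.finite_toSet _) fun x hx => ?_) h1)
      have := hno x hx
      simpa using this
    refine ⟨x.1, x.2, hx, ?_⟩
    have h2 := grow β (fun i => x.1 * β i ^ x.2 * A i - B i) hβ hinj 1 hx (by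
      rintro m ⟨hm, h3, h4⟩
      have h5 := h m hm
      rw [h3, h4] at h5
      have h6 : ∑ i, (x.1 * β i ^ x.2 * A i - B i) * β i ^ m =
          x.1 * ∑ i, A i * β i ^ (m + x.2) - ∑ i, B i * β i ^ m := by
        rw [mul_sum, ← sum_sub_distrib]
        refine sum_congr rfl fun i _ => ?_
        rw [pow_add]
        ring
      rw [h6]
      exact h5)
    intro i
    have := h2 i
    linarith
  have hge : ∀ M, {m ∈ S | M ≤ m}.Infinite := fun M => Mix.inf_ge hS M
  have hRR : ∀ m ∈ S, (1 : ℝ) ≤ R m := fun m hm => by exact_mod_cast hR m hm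
  by_cases hA : ∃ i, A i ≠ 0
  · obtain ⟨i₀, hi₀, cA, CA, hcA, hCA, hupA, hlowA⟩ := size_sum β A hβ hinj hA
    obtain ⟨MA, hMA⟩ := eventually_atTop.1 hlowA
    have hbA := hβ i₀
    by_cases hB : ∃ i, B i ≠ 0
    · obtain ⟨j₀, hj₀, cB, CB, hcB, hCB, hupB, hlowB⟩ := size_sum β B hβ hinj hB
      have hbB := hβ j₀
      rcases lt_or_ge (β i₀) (β j₀) with hlt | hle
      · -- the second sum is too large
        exfalso
        have hg := hgap i₀ j₀ hlt
        set θ := Real.log (β j₀) - (η + (1 + η) * Real.log (β i₀)) with hθ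
        have hθ0 : 0 < θ := by rw [hθ]; linarith
        have h1 : Tendsto (fun n : ℕ => (1 + CA) * Real.exp (-(θ * n))) atTop (𝓝 ((1 + CA) * 0)) := by
          apply Tendsto.const_mul
          apply Real.tendsto_exp_neg_atTop_nhds_zero.comp
          exact tendsto_natCast_atTop_atTop.const_mul_atTop hθ0
        rw [mul_zero] at h1
        obtain ⟨M, hM⟩ := eventually_atTop.1 (hlowB.and (h1.eventually_lt_const hcB))
        obtain ⟨m, hm, hmM⟩ := hS.exists_gt M
        obtain ⟨h2, h3⟩ := hM m hmM.le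
        have h4 := h m hm
        have hmR : (0 : ℝ) ≤ m := Nat.cast_nonneg m
        have h5 : |∑ i, B i * β i ^ m| ≤ 1 + R m * |∑ i, A i * β i ^ (m + d m)| := by
          have h6 := abs_sub_abs_le_abs_sub (∑ i, B i * β i ^ m) (R m * ∑ i, A i * β i ^ (m + d m))
          rw [abs_sub_comm (∑ i, B i * β i ^ m) (R m * ∑ i, A i * β i ^ (m + d m)),
            abs_mul (R m : ℝ) (∑ i, A i * β i ^ (m + d m)),
            abs_of_nonneg (show (0 : ℝ) ≤ R m from Nat.cast_nonneg (R m))] at h6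
          linarith
        have h6 : (R m : ℝ) * |∑ i, A i * β i ^ (m + d m)| ≤
            CA * Real.exp ((η + (1 + η) * Real.log (β i₀)) * m) := by
          have h7 := hupA (m + d m)
          have h8 : (R m : ℝ) ≤ Real.exp (η * m) := by
            rw [← Real.exp_log (show (0 : ℝ) < R m by have := hRR m hm; linarith)]
            exact Real.exp_le_exp.2 (hRη m hm)
          have h9 : β i₀ ^ (m + d m) ≤ Real.exp ((1 + η) * Real.log (β i₀) * m) := by
            rw [← Real.exp_log (show (0 : ℝ) < β i₀ ^ (m + d m) by positivity), Real.log_pow]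
            apply Real.exp_le_exp.2
            have h10 := hdη m hm
            have h11 : 0 < Real.log (β i₀) := Real.log_pos hbA
            push_cast
            nlinarith
          calc (R m : ℝ) * |∑ i, A i * β i ^ (m + d m)| ≤
              Real.exp (η * m) * (CA * Real.exp ((1 + η) * Real.log (β i₀) * m)) := by
                apply mul_le_mul h8 _ (abs_nonneg _) (Real.exp_pos _).le
                exact h7.trans (mul_le_mul_of_nonneg_left h9 hCA.le)
            _ = CA * Real.exp ((η + (1 + η) * Real.log (β i₀)) * m) := by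
                have : Real.exp ((η + (1 + η) * Real.log (β i₀)) * m) =
                    Real.exp (η * m) * Real.exp ((1 + η) * Real.log (β i₀) * m) := by
                  rw [← Real.exp_add]
                  congr 1
                  ring
                rw [this]
                ring
        have h7 : (1 : ℝ) ≤ Real.exp ((η + (1 + η) * Real.log (β i₀)) * m) := by
          apply Real.one_le_exp
          have h11 : 0 < Real.log (β i₀) := Real.log_pos hbA
          positivity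
        have h8 : β j₀ ^ m = Real.exp (θ * m) * Real.exp ((η + (1 + η) * Real.log (β i₀)) * m) := by
          rw [← Real.exp_log (show (0 : ℝ) < β j₀ ^ m by positivity), Real.log_pow, ← Real.exp_add]
          congr 1
          rw [hθ]
          ring
        have h9 : cB * Real.exp (θ * m) ≤ 1 + CA := by
          set X := Real.exp ((η + (1 + η) * Real.log (β i₀)) * m) with hX
          have hX0 : 0 < X := Real.exp_pos _
          have h10 : cB * Real.exp (θ * m) * X ≤ (1 + CA) * X := by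
            calc cB * Real.exp (θ * m) * X = cB * β j₀ ^ m := by rw [h8]; ring
              _ ≤ 1 + CA * X := by linarith
              _ ≤ (1 + CA) * X := by nlinarith
          exact le_of_mul_le_mul_right h10 hX0
        have h10 : (1 + CA) * Real.exp (-(θ * m)) < cB := h3
        rw [Real.exp_neg, ← div_eq_mul_inv, div_lt_iff₀ (Real.exp_pos _)] at h10
        linarith
      · -- `R` and `d` are bounded
        have hbnd : ∀ m ∈ S, MA ≤ m → (R m : ℝ) * β i₀ ^ d m ≤ (1 + CB) / cA := by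
          intro m hm hmM
          have h2 := hMA (m + d m) (by omega)
          have h4 := h m hm
          have h5 : (R m : ℝ) * |∑ i, A i * β i ^ (m + d m)| ≤ 1 + |∑ i, B i * β i ^ m| := by
            have h6 := abs_sub_abs_le_abs_sub (R m * ∑ i, A i * β i ^ (m + d m)) (∑ i, B i * β i ^ m)
            rw [abs_mul, abs_of_nonneg (Nat.cast_nonneg (R m))] at h6
            linarith
          have h6 : |∑ i, B i * β i ^ m| ≤ CB * β i₀ ^ m := by
            refine (hupB m).trans ?_
            gcongr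
          have h7 : (1 : ℝ) ≤ β i₀ ^ m := one_le_pow₀ hbA.le
          have h8 : (R m : ℝ) * (cA * β i₀ ^ (m + d m)) ≤ (1 + CB) * β i₀ ^ m := by
            calc (R m : ℝ) * (cA * β i₀ ^ (m + d m)) ≤ R m * |∑ i, A i * β i ^ (m + d m)| := by gcongr
              _ ≤ 1 + CB * β i₀ ^ m := by linarith
              _ ≤ (1 + CB) * β i₀ ^ m := by nlinarith
          rw [le_div_iff₀ hcA]
          have h9 : (R m : ℝ) * β i₀ ^ d m * cA * β i₀ ^ m ≤ (1 + CB) * β i₀ ^ m := by
            calc (R m : ℝ) * β i₀ ^ d m * cA * β i₀ ^ m = R m * (cA * β i₀ ^ (m + d m)) := by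
                  rw [pow_add]; ring
              _ ≤ _ := h8
          exact le_of_mul_le_mul_right h9 (by positivity)
        set X := (1 + CB) / cA with hX
        obtain ⟨K₁, hK₁⟩ := exists_nat_ge X
        obtain ⟨K₂, hK₂⟩ := eventually_atTop.1
          ((tendsto_pow_atTop_atTop_of_one_lt hbA).eventually_gt_atTop X)
        refine hfinal (max K₁ K₂) ((hge MA).mono ?_)
        rintro m ⟨hm, hmM⟩
        have h1 := hbnd m hm hmM
        have h2 := hRR m hm
        have h3 : (1 : ℝ) ≤ β i₀ ^ d m := one_le_pow₀ hbA.le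
        refine ⟨hm, ?_, ?_⟩
        · have h4 : (R m : ℝ) ≤ K₁ := by nlinarith
          have h5 : R m ≤ K₁ := by exact_mod_cast h4
          exact h5.trans (le_max_left _ _)
        · refine le_trans ?_ (le_max_right _ _)
          by_contra hlt
          push Not at hlt
          have h4 := hK₂ (d m) hlt.le
          nlinarith
    · -- the second sum is zero
      exfalso
      push Not at hB
      have h1 : Tendsto (fun n : ℕ => cA * β i₀ ^ n) atTop atTop :=
        (tendsto_pow_atTop_atTop_of_one_lt hbA).const_mul_atTop hcA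
      obtain ⟨M, hM⟩ := eventually_atTop.1 (h1.eventually_gt_atTop 1)
      obtain ⟨m, hm, hmM⟩ := hS.exists_gt (max M MA)
      have h2 := hMA (m + d m) (by omega)
      have h3 := hM (m + d m) (by omega)
      have h4 := h m hm
      simp only [hB, zero_mul, sum_const_zero, sub_zero] at h4
      rw [abs_mul, abs_of_nonneg (Nat.cast_nonneg (R m))] at h4
      have h5 := hRR m hm
      nlinarith [abs_nonneg (∑ i, A i * β i ^ (m + d m))]
  · -- the first sum is zero
    exfalso
    have hB := hAB.resolve_left hA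
    push Not at hA
    obtain ⟨i, hi⟩ := hB
    apply hi
    refine grow β B hβ hinj 1 hS (fun m hm => ?_) i
    have h4 := h m hm
    simp only [hA, zero_mul, sum_const_zero, mul_zero, zero_sub, abs_neg] at h4
    exact h4

end

end Pool.Agent.H607.Uni
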