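import Pool.Agent.H607.Uni.Choice
import Pool.Agent.H607.Uni.Count
import Pool.Agent.H607.Pw.Equid
import Mathlib

/-!
# One chain of multipliers for countably many sequences
-/

set_option autoImplicit false

namespace Pool.Agent.H607.Uni

open Finset Filter Topology MeasureTheory
open Pool.Agent.W206.ND (ee)
open Pool.Agent.H607 Pool.Agent.H607.Mix
open Pool.Agent.H607.Pw (Equid)

theorem universal {T : Type} [Countable T] (t : T → ℕ → ℝ) (ρ : T → ℕ) (η : T → ℝ) (hρ : ∀ τ, 1 ≤ ρ τ)
    (hη : ∀ τ, 0 < η τ) (hη1 : ∀ τ, η τ ≤ 1) (hA : ∀ τ, DA (t τ) (ρ τ) (η τ)) (hB : ∀ τ, DB (t τ) (ρ τ) (η τ))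
    (Φ : ℕ → ℕ) (hΦ : Tendsto Φ atTop atTop) :
    ∃ c : ℕ → ℕ, (∀ n, c n = 1 ∨ (c n).Prime) ∧ (∀ᶠ n : ℕ in atTop, c n ≤ n ^ Φ n) ∧
      (∀ ε : ℝ, 0 < ε → ∀ᶠ N : ℕ in atTop,
        (((range N).filter fun n => c n ≠ 1).card : ℝ) ≤ ε * N / Real.log N) ∧
      (∀ ε : ℝ, 0 < ε → ∀ᶠ N : ℕ in atTop, ((∏ n ∈ range N, c n : ℕ) : ℝ) ≤ Real.exp (ε * N)) ∧
      ∀ τ, Tendsto (fun N : ℕ => SS (fun n => t τ n * ∏ i ∈ range n, (c i : ℝ)) N / (N : ℂ)) atTop (𝓝 0) := by
  classical
  rcases isEmpty_or_nonempty T with hT | hT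
  · refine ⟨fun _ => 1, fun _ => Or.inl rfl, ?_, ?_, ?_, fun τ => (hT.false τ).elim⟩
    · filter_upwards [eventually_ge_atTop 1] with n hn
      exact Nat.one_le_pow _ _ hn
    · intro ε hε
      filter_upwards [eventually_ge_atTop 1] with N hN
      have h1 : (1 : ℝ) ≤ N := by exact_mod_cast hN
      have h2 := Real.log_nonneg h1
      simp only [ne_eq, not_true_eq_false, filter_false, card_empty, Nat.cast_zero]
      positivity
    · intro ε hε
      refine Eventually.of_forall fun N => ?_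
      simp only [prod_const_one, Nat.cast_one]
      apply Real.one_le_exp
      positivity
  · obtain ⟨f, hf⟩ := exists_surjective_nat T
    obtain ⟨p, hp, hpΦ, hD⟩ := common_sch (fun k => t (f k)) (fun k => ρ (f k)) (fun k => η (f k))
      (fun k => hA _) (fun k => hB _) Φ hΦ
    have hae : ∀ᵐ ω ∂(unif (wt p)), ∀ τ : T,
        Tendsto (fun N : ℕ => SS (fun n => t τ n * (RR p n ω : ℕ)) N / (N : ℂ)) atTop (𝓝 0) := by
      rw [ae_all_iff]
      intro τ
      obtain ⟨k, hk⟩ := hf τ
      refine as_corr (fun n ω => t τ n * (RR p n ω : ℕ)) (fun n => ?_) ?_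
      · exact ((measurable_from_nat (f := fun k : ℕ => (k : ℝ))).comp (RR_meas p n)).const_mul (t τ n)
      · have h1 := corr_small p hp (hρ (f k)) (hη (f k)) (hη1 (f k)) (hD k).1 (hD k).2
        simp only [hk] at h1
        exact h1
    obtain ⟨ω, hω⟩ := hae.exists
    have hRR : ∀ n, (RR p n ω : ℝ) = ∏ i ∈ range n, (fac p i (ω i) : ℝ) := by
      intro n
      unfold RR Q E
      rw [prod_filter]
      push_cast
      rw [← range_eq_Ico]
      refine prod_congr rfl fun i _ => ?_
      split_ifs with h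
      · rfl
      · unfold fac
        rw [if_neg h, Nat.cast_one]
    have hne : ∀ n, fac p n (ω n) ≠ 1 → Exc p n := by
      intro n h
      by_contra hn
      apply h
      unfold fac
      rw [if_neg hn]
    refine ⟨fun n => fac p n (ω n), ?_, ?_, ?_, ?_, ?_⟩
    · intro n
      by_cases h : Exc p n
      · exact Or.inr (fac_prime p h _)
      · left
        show fac p n (ω n) = 1
        unfold fac
        rw [if_neg h]
    · filter_upwards [hpΦ, (hp.comp size_tendsto).eventually_ge_atTop 4, eventually_ge_atTop 2] with n h1 h2 hn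
      have h2' : 4 ≤ p.v n.size := h2
      by_cases h : Exc p n
      · have h3 := (fac_lt p h (ω n)).le
        have h4 : 2 ^ n.size ≤ n ^ 2 := by
          have hs1 : 0 < n.size := Nat.size_pos.2 (by omega)
          have h6 : 2 ^ (n.size - 1) ≤ n := Nat.lt_size.1 (by omega)
          calc 2 ^ n.size = 2 ^ (n.size - 1 + 1) := by congr 1; omega
            _ = 2 * 2 ^ (n.size - 1) := by rw [pow_succ]; ring
            _ ≤ n * n := Nat.mul_le_mul hn h6
            _ = n ^ 2 := by ring
        refine h3.trans ?_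
        rw [Nat.mul_comm, pow_mul]
        calc (2 ^ n.size) ^ (p.v n.size + 2) ≤ (n ^ 2) ^ (p.v n.size + 2) := Nat.pow_le_pow_left h4 _
          _ = n ^ (2 * (p.v n.size + 2)) := by rw [← pow_mul]
          _ ≤ n ^ Φ n := Nat.pow_le_pow_right (by omega) (by nlinarith)
      · show fac p n (ω n) ≤ n ^ Φ n
        unfold fac
        rw [if_neg h]
        exact Nat.one_le_pow _ _ (by omega)
    · intro ε hε
      filter_upwards [few_exc p hp hε] with N hN
      have h1 : (range N).filter (fun n => fac p n (ω n) ≠ 1) ⊆ E p 0 N := by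
        intro n hn
        unfold E
        rw [mem_filter, mem_range] at hn
        rw [mem_filter, mem_Ico]
        exact ⟨⟨Nat.zero_le _, hn.1⟩, hne n hn.2⟩
      have h2 : (((range N).filter fun n => fac p n (ω n) ≠ 1).card : ℝ) ≤ (E p 0 N).card := by
        exact_mod_cast card_le_card h1
      exact h2.trans hN
    · intro ε hε
      filter_upwards [prod_small p hp hε] with N hN
      have h1 := hN ω
      rw [hRR] at h1
      push_cast
      exact h1
    · intro τ
      refine (hω τ).congr fun N => ?_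
      congr 2
      funext n
      rw [hRR]

/-- digit matrices in the numeration systems with the radices `B i * c n` -/
theorem digits_chain {r k : ℕ} (B : Fin r → ℕ) (hB : ∀ i, 2 ≤ B i) (c : ℕ → ℕ)
    (hc : Tendsto (fun N : ℕ => (((range N).filter fun n => c n ≠ 1).card : ℝ) / N) atTop (𝓝 0))
    (z : Fin r → Fin k → ℝ)
    (h : Equid (fun n (p : Fin r × Fin k) => z p.1 p.2 * (B p.1 : ℝ) ^ n * ∏ i ∈ range n, (c i : ℝ))) (m : ℕ)
    (D : (i : Fin r) → Fin k → Fin m → Fin (B i)) :
    Tendsto (fun N : ℕ => ({n : ℕ | n < N ∧ ∀ (i : Fin r) (j : Fin k) (t : Fin m),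
      ⌊z i j * ∏ l ∈ range (n + t + 1), ((B i : ℝ) * c l)⌋ % ((B i : ℤ) * c (n + t)) =
        ((D i j t : ℕ) : ℤ)}.ncard : ℝ) / N)
      atTop (𝓝 (∏ i, 1 / (B i : ℝ) ^ (m * k))) := by
  classical
  choose a ha hbox using fun i => Pool.Agent.W92.ND.DM.main Pool.Agent.W856.ND.DG.main (B i) k m (D i) (hB i)
  have hB0 : ∀ i, (0 : ℝ) < 1 / (B i : ℝ) ^ m := fun i => by
    have : (0 : ℝ) < B i := by exact_mod_cast (by have := hB i; omega : 0 < B i)
    positivity
  have h1 := h (fun p => a p.1 p.2) (fun p => a p.1 p.2 + 1 / (B p.1 : ℝ) ^ m)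
    (fun p => ⟨(ha p.1 p.2).1, by linarith [hB0 p.1], (ha p.1 p.2).2⟩)
  have hprod : ∏ p : Fin r × Fin k, ((a p.1 p.2 + 1 / (B p.1 : ℝ) ^ m) - a p.1 p.2) =
      ∏ i, 1 / (B i : ℝ) ^ (m * k) := by
    have e : ∀ p : Fin r × Fin k, (a p.1 p.2 + 1 / (B p.1 : ℝ) ^ m) - a p.1 p.2 = 1 / (B p.1 : ℝ) ^ m :=
      fun p => by ring
    rw [prod_congr rfl fun p _ => e p, Fintype.prod_prod_type]
    refine prod_congr rfl fun i _ => ?_
    simp only [prod_const, card_univ, Fintype.card_fin]
    rw [one_div_pow, ← pow_mul]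
  rw [hprod] at h1
  have hP : ∀ (i : Fin r) (n : ℕ), ∏ l ∈ range n, ((B i : ℝ) * c l) =
      (B i : ℝ) ^ n * ∏ l ∈ range n, (c l : ℝ) := by
    intro i n
    rw [prod_mul_distrib, prod_const, card_range]
  -- away from the windows with an exceptional radix the two conditions agree
  have hkey : ∀ n, (∀ t < m, c (n + t) = 1) → ((∀ (i : Fin r) (j : Fin k) (t : Fin m),
      ⌊z i j * ∏ l ∈ range (n + t + 1), ((B i : ℝ) * c l)⌋ % ((B i : ℤ) * c (n + t)) =
        ((D i j t : ℕ) : ℤ)) ↔
      ∀ p : Fin r × Fin k, a p.1 p.2 ≤ Int.fract (z p.1 p.2 * (B p.1 : ℝ) ^ n * ∏ i ∈ range n, (c i : ℝ)) ∧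
        Int.fract (z p.1 p.2 * (B p.1 : ℝ) ^ n * ∏ i ∈ range n, (c i : ℝ)) <
          a p.1 p.2 + 1 / (B p.1 : ℝ) ^ m) := by
    intro n hn
    have h2 : ∀ t ≤ m, ∏ i ∈ range (n + t), (c i : ℝ) = ∏ i ∈ range n, (c i : ℝ) := by
      intro t
      induction t with
      | zero => simp
      | succ t ih =>
        intro ht
        rw [← add_assoc, prod_range_succ, ih (by omega), hn t (by omega), Nat.cast_one, mul_one]
    have h3 : ∀ i, (∀ (j : Fin k) (t : Fin m),
        ⌊z i j * ∏ l ∈ range (n + t + 1), ((B i : ℝ) * c l)⌋ % ((B i : ℤ) * c (n + t)) =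
          ((D i j t : ℕ) : ℤ)) ↔ ∀ j, a i j ≤ Int.fract (z i j * (B i : ℝ) ^ n * ∏ i ∈ range n, (c i : ℝ)) ∧
        Int.fract (z i j * (B i : ℝ) ^ n * ∏ i ∈ range n, (c i : ℝ)) < a i j + 1 / (B i : ℝ) ^ m := by
      intro i
      have h4 := hbox i (fun j => z i j * (B i : ℝ) ^ n * ∏ i ∈ range n, (c i : ℝ)) 0
      simp only [pow_zero, mul_one] at h4
      rw [← h4]
      refine forall_congr' fun j => forall_congr' fun t => ?_
      have h5 := h2 (t + 1) (by omega)
      rw [← add_assoc] at h5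
      rw [hP, h5, hn t t.2, zero_add, add_comm 1 (t : ℕ), Nat.cast_one, mul_one]
      have h6 : z i j * ((B i : ℝ) ^ (n + t + 1) * ∏ i ∈ range n, (c i : ℝ)) =
          z i j * (B i : ℝ) ^ n * (∏ i ∈ range n, (c i : ℝ)) * (B i : ℝ) ^ ((t : ℕ) + 1) := by
        rw [add_assoc, pow_add]
        ring
      rw [h6]
    constructor
    · intro h4 p
      exact (h3 p.1).1 (h4 p.1) p.2
    · intro h4 i
      exact (h3 i).2 fun j => h4 (i, j)
  set PA : ℕ → Prop := fun n => ∀ (i : Fin r) (j : Fin k) (t : Fin m),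
      ⌊z i j * ∏ l ∈ range (n + t + 1), ((B i : ℝ) * c l)⌋ % ((B i : ℤ) * c (n + t)) =
        ((D i j t : ℕ) : ℤ) with hPA
  set PB : ℕ → Prop := fun n => ∀ p : Fin r × Fin k,
      a p.1 p.2 ≤ Int.fract (z p.1 p.2 * (B p.1 : ℝ) ^ n * ∏ i ∈ range n, (c i : ℝ)) ∧
        Int.fract (z p.1 p.2 * (B p.1 : ℝ) ^ n * ∏ i ∈ range n, (c i : ℝ)) <
          a p.1 p.2 + 1 / (B p.1 : ℝ) ^ m with hPB
  have hcard : ∀ (P : ℕ → Prop) [DecidablePred P] (N : ℕ), {n : ℕ | n < N ∧ P n}.ncard = ((range N).filter P).card := by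
    intro P _ N
    rw [← Set.ncard_coe_finset]
    congr 1
    ext n
    simp
  have hdiff : ∀ N : ℕ, |((((range N).filter PA).card : ℕ) : ℝ) - ((((range N).filter PB).card : ℕ) : ℝ)| ≤
      m * (((range N).filter fun n => c n ≠ 1).card + m) := by
    intro N
    set A' := (range N).filter PA with hA
    set B' := (range N).filter PB with hB
    set W := (range m).biUnion (fun t => ((range (N + m)).filter fun n => c n ≠ 1).image (fun n => n - t))
      with hW
    have hWc : W.card ≤ m * (((range N).filter fun n => c n ≠ 1).card + m) := by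
      refine (card_biUnion_le).trans ?_
      calc ∑ t ∈ range m, (((range (N + m)).filter fun n => c n ≠ 1).image (fun n => n - t)).card ≤
          ∑ t ∈ range m, (((range N).filter fun n => c n ≠ 1).card + m) := by
            refine sum_le_sum fun t _ => card_image_le.trans ?_
            have : (range (N + m)).filter (fun n => c n ≠ 1) ⊆
                (range N).filter (fun n => c n ≠ 1) ∪ Ico N (N + m) := by
              intro i hi
              rw [mem_filter, mem_range] at hi
              rw [mem_union, mem_filter, mem_range, mem_Ico]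
              rcases lt_or_ge i N with h | h
              · exact Or.inl ⟨h, hi.2⟩
              · exact Or.inr ⟨h, hi.1⟩
            refine (card_le_card this).trans ((card_union_le _ _).trans ?_)
            rw [Nat.card_Ico]
            omega
        _ = _ := by rw [sum_const, card_range, smul_eq_mul]
    have hsub : ∀ n ∈ range N, n ∉ W → (n ∈ A' ↔ n ∈ B') := by
      intro n hn hnW
      rw [hA, hB, mem_filter, mem_filter]
      have : ∀ t < m, c (n + t) = 1 := by
        intro t ht
        by_contra hne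
        apply hnW
        rw [hW, mem_biUnion]
        refine ⟨t, mem_range.2 ht, ?_⟩
        rw [mem_image]
        refine ⟨n + t, ?_, by omega⟩
        rw [mem_filter, mem_range]
        have := mem_range.1 hn
        exact ⟨by omega, hne⟩
      have h4 := hkey n this
      exact and_congr_right fun _ => h4
    have h5 : A' ⊆ B' ∪ W := by
      intro n hn
      rw [mem_union]
      by_cases hw : n ∈ W
      · exact Or.inr hw
      · exact Or.inl ((hsub n (mem_filter.1 hn).1 hw).1 hn)
    have h6 : B' ⊆ A' ∪ W := by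
      intro n hn
      rw [mem_union]
      by_cases hw : n ∈ W
      · exact Or.inr hw
      · exact Or.inl ((hsub n (mem_filter.1 hn).1 hw).2 hn)
    have h7 := (card_le_card h5).trans (card_union_le _ _)
    have h8 := (card_le_card h6).trans (card_union_le _ _)
    have h7' : (A'.card : ℝ) ≤ B'.card + W.card := by exact_mod_cast h7
    have h8' : (B'.card : ℝ) ≤ A'.card + W.card := by exact_mod_cast h8
    have h9 : (W.card : ℝ) ≤ m * (((range N).filter fun n => c n ≠ 1).card + m) := by exact_mod_cast hWc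
    rw [abs_le]
    constructor <;> linarith
  have hz : Tendsto (fun N : ℕ => (m : ℝ) * ((((range N).filter fun n => c n ≠ 1).card : ℝ) / N + m / N))
      atTop (𝓝 (m * (0 + 0))) :=
    (hc.add (tendsto_const_div_atTop_nhds_zero_nat (m : ℝ))).const_mul _
  rw [add_zero, mul_zero] at hz
  have hd : Tendsto (fun N : ℕ => ((((range N).filter PA).card : ℕ) : ℝ) / N -
      ((((range N).filter PB).card : ℕ) : ℝ) / N) atTop (𝓝 0) := by
    refine squeeze_zero_norm (fun N => ?_) hz
    rw [← sub_div, Real.norm_eq_abs, abs_div, Nat.abs_cast, ← add_div, mul_div_assoc']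
    exact div_le_div_of_nonneg_right (hdiff N) (Nat.cast_nonneg _)
  have h1' : Tendsto (fun N : ℕ => ((((range N).filter PB).card : ℕ) : ℝ) / N) atTop
      (𝓝 (∏ i, 1 / (B i : ℝ) ^ (m * k))) := by
    refine h1.congr fun N => ?_
    rw [hcard PB N]
  have h10 := hd.add h1'
  rw [zero_add] at h10
  refine h10.congr fun N => ?_
  rw [hcard PA N]
  ring

end Pool.Agent.H607.Uni
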