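import Pool.Agent.H607.Uni.Sched
import Mathlib

/-!
# The masses of the intervals of places
-/

set_option autoImplicit false

namespace Pool.Agent.H607.Uni

open Finset Filter Topology
open Pool.Agent.H607.Mix (Q)

variable (p : Sch)

/-- the error term -/
noncomputable def er (N : ℕ) : ℝ := 256 + 2 * (p.v N.size * (N.size : ℝ) ^ 2) + 2 ^ (N.size / 2)

lemma U_eq (a c : ℕ) : (U p a c : ℝ) = M p (fun _ => 1) a c := by
  unfold U M
  push_cast
  simp

lemma W_eq (a c : ℕ) : (W p a c : ℝ) = M p (fun s => (p.v s : ℝ)) a c := by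
  unfold W M
  push_cast
  rfl

lemma F_lower {a c N : ℕ} (h : a ≤ c) (hc : c ≤ N) :
    ((c : ℝ) - a) / p.v N.size ≤ F p (fun s => (p.v s : ℝ)) a c := by
  unfold F
  have h1 : ((c : ℝ) - a) / p.v N.size = ∑ i ∈ Ico a c, (1 : ℝ) / p.v N.size := by
    rw [sum_const, Nat.card_Ico, nsmul_eq_mul, Nat.cast_sub h]
    ring
  rw [h1]
  apply sum_le_sum fun i hi => ?_
  rw [mem_Ico] at hi
  have hv : (0 : ℝ) < (p.v i.size : ℝ) := by exact_mod_cast p.one _
  have h2 : (p.v i.size : ℝ) ≤ p.v N.size := by exact_mod_cast p.mono (Nat.size_le_size (by omega))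
  have h3 : (p.v i.size : ℝ) / (p.v i.size : ℝ) ^ 2 = 1 / p.v i.size := by field_simp
  rw [h3]
  exact one_div_le_one_div_of_le hv h2

/-- upper bound for sums of functions of the size -/
lemma F_upper (f : ℕ → ℝ) (B : ℝ) (hf : ∀ i, f i ≤ 1) (hB : 0 ≤ B) {a c N : ℕ}
    (h : a ≤ c) (hfB : ∀ i, i < c → N.size / 2 ≤ i.size → f i ≤ B) :
    ∑ i ∈ Ico a c, f i ≤ B * ((c : ℝ) - a) + 2 ^ (N.size / 2) := by
  calc ∑ i ∈ Ico a c, f i ≤ ∑ i ∈ Ico a c, (B + if i < 2 ^ (N.size / 2) then 1 else 0) := by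
        apply sum_le_sum fun i hi => ?_
        rw [mem_Ico] at hi
        by_cases h1 : i < 2 ^ (N.size / 2)
        · rw [if_pos h1]
          have := hf i
          linarith
        · rw [if_neg h1, add_zero]
          apply hfB i hi.2
          push Not at h1
          exact (Nat.lt_size.2 h1).le
    _ = B * ((c : ℝ) - a) + (((Ico a c).filter (fun i => i < 2 ^ (N.size / 2))).card : ℝ) := by
        rw [sum_add_distrib, sum_const, Nat.card_Ico, nsmul_eq_mul, Nat.cast_sub h, sum_boole]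
        ring
    _ ≤ B * ((c : ℝ) - a) + 2 ^ (N.size / 2) := by
        have h1 : ((Ico a c).filter (fun i => i < 2 ^ (N.size / 2))).card ≤ 2 ^ (N.size / 2) := by
          calc _ ≤ (range (2 ^ (N.size / 2))).card := by
                apply card_le_card
                intro i hi
                rw [mem_filter] at hi
                exact mem_range.2 hi.2
            _ = _ := card_range _
        have h2 : ((((Ico a c).filter (fun i => i < 2 ^ (N.size / 2))).card : ℕ) : ℝ) ≤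
            ((2 ^ (N.size / 2) : ℕ) : ℝ) := by exact_mod_cast h1
        push_cast at h2
        linarith

lemma v_half {i N : ℕ} (h : N.size / 2 ≤ i.size) : (p.v N.size : ℝ) ≤ 2 * p.v i.size := by
  have h1 := p.slow N.size
  have h2 := p.mono h
  have h3 : p.v N.size ≤ 2 * p.v i.size := by omega
  exact_mod_cast h3

theorem bounds {a c N : ℕ} (h : a ≤ c) (hc : c ≤ N) :
    ((c : ℝ) - a) / p.v N.size - er p N ≤ W p a c ∧
    (W p a c : ℝ) ≤ 2 * ((c : ℝ) - a) / p.v N.size + er p N ∧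
    (U p a c : ℝ) ≤ 4 * ((c : ℝ) - a) / (p.v N.size : ℝ) ^ 2 + er p N := by
  have hvp : ∀ s, (1 : ℝ) ≤ (p.v s : ℝ) := fun s => by exact_mod_cast p.one s
  set s := N.size with hs
  have hcs : c ≤ 2 ^ s := hc.trans (Nat.lt_size_self N).le
  have has : a ≤ 2 ^ s := h.trans hcs
  have hca : (0 : ℝ) ≤ (c : ℝ) - a := by
    have : (a : ℝ) ≤ c := by exact_mod_cast h
    linarith
  have hv0 : (0 : ℝ) < (p.v s : ℝ) := lt_of_lt_of_le one_pos (hvp s)
  have key : ∀ (f : ℕ → ℝ), (∀ s, 0 ≤ f s) → Monotone f → (∀ s, f s ≤ (p.v s : ℝ) ^ 2) →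
      f s ≤ p.v s → |M p f a c - F p f a c| ≤ 256 + 2 * (p.v s * (s : ℝ) ^ 2) := by
    intro f h0 hm hb hfs
    have h1 := cmp p f h0 hm hb s c hcs
    have h2 := cmp p f h0 hm hb s a has
    have h3 := M_add p f (Nat.zero_le a) h
    have h4 := F_add p f (Nat.zero_le a) h
    have h5 : M p f a c - F p f a c = (M p f 0 c - F p f 0 c) - (M p f 0 a - F p f 0 a) := by
      rw [h3, h4]; ring
    rw [h5]
    refine (abs_sub _ _).trans ?_
    have h6 : f s * (s : ℝ) ^ 2 ≤ p.v s * (s : ℝ) ^ 2 := by gcongr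
    linarith
  have hpow : (0 : ℝ) < 2 ^ (s / 2) := by positivity
  have k1 := abs_le.1 (key (fun s => (p.v s : ℝ)) (fun s => Nat.cast_nonneg _)
    (fun x y hxy => by
      have h1 := p.mono hxy
      show (p.v x : ℝ) ≤ p.v y
      exact_mod_cast h1) (fun s => by have := hvp s; nlinarith) le_rfl)
  have k2 := abs_le.1 (key (fun _ => 1) (fun s => zero_le_one) (fun x y hxy => le_rfl)
    (fun s => by have := hvp s; nlinarith) (hvp s))
  have f1 := F_lower p h hc
  have f2 : F p (fun s => (p.v s : ℝ)) a c ≤ (2 / p.v s) * ((c : ℝ) - a) + 2 ^ (s / 2) := by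
    apply F_upper (fun i => (p.v i.size : ℝ) / (p.v i.size : ℝ) ^ 2) (2 / p.v s) _ (by positivity) h
    · intro i _ hi
      have h1 := v_half p hi
      have h2 := hvp i.size
      have h3 : (p.v i.size : ℝ) / (p.v i.size : ℝ) ^ 2 = 1 / p.v i.size := by field_simp
      rw [h3, div_le_div_iff₀ (by linarith) hv0]
      linarith
    · intro i
      have h2 := hvp i.size
      rw [div_le_one (by positivity)]
      nlinarith
  have f3 : F p (fun _ => 1) a c ≤ (4 / (p.v s : ℝ) ^ 2) * ((c : ℝ) - a) + 2 ^ (s / 2) := by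
    apply F_upper (fun i => (1 : ℝ) / (p.v i.size : ℝ) ^ 2) (4 / (p.v s : ℝ) ^ 2) _ (by positivity) h
    · intro i _ hi
      have h1 := v_half p hi
      have h2 := hvp i.size
      rw [div_le_div_iff₀ (by positivity) (by positivity)]
      have h3 : (p.v s : ℝ) ^ 2 ≤ (2 * p.v i.size) ^ 2 := by gcongr
      linarith
    · intro i
      have h2 := hvp i.size
      rw [div_le_one (by positivity)]
      nlinarith
  rw [W_eq, U_eq]
  unfold er
  rw [← hs]
  refine ⟨?_, ?_, ?_⟩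
  · linarith [k1.1, f1]
  · have e1 : 2 * ((c : ℝ) - a) / p.v s = (2 / p.v s) * ((c : ℝ) - a) := by ring
    rw [e1]
    linarith [k1.2, f2]
  · have e1 : 4 * ((c : ℝ) - a) / (p.v s : ℝ) ^ 2 = (4 / (p.v s : ℝ) ^ 2) * ((c : ℝ) - a) := by ring
    rw [e1]
    linarith [k2.2, f3]

lemma er_pos (N : ℕ) : 0 ≤ er p N := by unfold er; positivity

lemma size_tendsto : Tendsto Nat.size atTop atTop := by
  apply tendsto_atTop_atTop.2
  intro k
  refine ⟨2 ^ k, fun n hn => ?_⟩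
  exact (Nat.lt_size.2 hn).le

lemma poly_small (A : ℝ) : ∀ᶠ s : ℕ in atTop,
    A * ((256 + 2 * ((s : ℝ) * (s : ℝ) ^ 2) + 2 ^ (s / 2)) * (s : ℝ) ^ 2) ≤ 2 ^ s / 2 := by
  have hhalf : ∀ s : ℕ, (2 : ℝ) ^ (s / 2) ≤ (3 / 2) ^ s := by
    intro s
    have h1 : ((2 : ℝ) ^ (s / 2)) ^ 2 ≤ ((3 / 2 : ℝ) ^ s) ^ 2 := by
      calc ((2 : ℝ) ^ (s / 2)) ^ 2 = 2 ^ (2 * (s / 2)) := by rw [← pow_mul, mul_comm]
        _ ≤ 2 ^ s := pow_le_pow_right₀ (by norm_num) (by omega)
        _ ≤ (9 / 4 : ℝ) ^ s := by gcongr; norm_num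
        _ = ((3 / 2 : ℝ) ^ s) ^ 2 := by rw [← pow_mul, mul_comm, pow_mul]; norm_num
    exact (pow_le_pow_iff_left₀ (by positivity) (by positivity) (by norm_num)).1 h1
  have t1 := tendsto_pow_const_div_const_pow_of_one_lt 2 (show (1 : ℝ) < 2 by norm_num)
  have t2 := tendsto_pow_const_div_const_pow_of_one_lt 5 (show (1 : ℝ) < 2 by norm_num)
  have t3 := tendsto_pow_const_div_const_pow_of_one_lt 2 (show (1 : ℝ) < 4 / 3 by norm_num)
  have t := ((t1.const_mul (|A| * 256)).add (t2.const_mul (|A| * 2))).add (t3.const_mul |A|)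
  simp only [mul_zero, add_zero] at t
  filter_upwards [t.eventually_le_const (show (0 : ℝ) < 1 / 2 by norm_num)] with s hs
  have h2 : (0 : ℝ) < 2 ^ s := by positivity
  have h3 : (3 / 2 : ℝ) ^ s * (s : ℝ) ^ 2 = 2 ^ s * ((s : ℝ) ^ 2 / (4 / 3) ^ s) := by
    have : (2 : ℝ) ^ s = (3 / 2) ^ s * (4 / 3) ^ s := by rw [← mul_pow]; norm_num
    rw [this]
    field_simp
  calc A * ((256 + 2 * ((s : ℝ) * (s : ℝ) ^ 2) + 2 ^ (s / 2)) * (s : ℝ) ^ 2) ≤
      |A| * ((256 + 2 * ((s : ℝ) * (s : ℝ) ^ 2) + (3 / 2) ^ s) * (s : ℝ) ^ 2) := by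
        have := hhalf s
        have h4 := le_abs_self A
        gcongr
    _ = 2 ^ s * (|A| * 256 * ((s : ℝ) ^ 2 / 2 ^ s) + |A| * 2 * ((s : ℝ) ^ 5 / 2 ^ s) +
        |A| * ((s : ℝ) ^ 2 / (4 / 3) ^ s)) := by
        have e1 : |A| * ((256 + 2 * ((s : ℝ) * (s : ℝ) ^ 2) + (3 / 2) ^ s) * (s : ℝ) ^ 2) =
            |A| * 256 * (s : ℝ) ^ 2 + |A| * 2 * (s : ℝ) ^ 5 + |A| * ((3 / 2 : ℝ) ^ s * (s : ℝ) ^ 2) := by ring
        rw [e1, h3]
        field_simp
    _ ≤ 2 ^ s * (1 / 2) := by gcongr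
    _ = 2 ^ s / 2 := by ring

lemma er_small (A : ℝ) : ∀ᶠ N : ℕ in atTop, A * (er p N * (p.v N.size : ℝ) ^ 2) ≤ N := by
  filter_upwards [size_tendsto.eventually (poly_small |A|), eventually_ge_atTop 1] with N hN hN1
  have hs1 : 1 ≤ N.size := by
    have := Nat.size_pos.2 (show 0 < N by omega)
    omega
  have h1 : (2 : ℝ) ^ N.size / 2 ≤ N := by
    have h2 : 2 ^ (N.size - 1) ≤ N := Nat.lt_size.1 (by omega)
    have h3 : 2 ^ N.size = 2 * 2 ^ (N.size - 1) := by
      rw [← pow_succ']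
      congr 1
      omega
    have h4 : ((2 ^ N.size : ℕ) : ℝ) = ((2 * 2 ^ (N.size - 1) : ℕ) : ℝ) := by rw [h3]
    have h5 : ((2 ^ (N.size - 1) : ℕ) : ℝ) ≤ N := by exact_mod_cast h2
    push_cast at h4 h5
    linarith
  refine le_trans ?_ (hN.trans h1)
  have hv : (p.v N.size : ℝ) ≤ N.size := by exact_mod_cast p.le _ hs1
  have h0 := er_pos p N
  calc A * (er p N * (p.v N.size : ℝ) ^ 2) ≤ |A| * (er p N * (p.v N.size : ℝ) ^ 2) := by
        gcongr
        exact le_abs_self A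
    _ ≤ _ := by
        unfold er
        gcongr

end Pool.Agent.H607.Uni
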