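import Pool.Agent.H607.Uni.Corr
import Mathlib

/-!
# The correlations are small
-/

set_option autoImplicit false

namespace Pool.Agent.H607.Uni

open Finset Filter Topology MeasureTheory
open Pool.Agent.W206.ND (ee)
open Pool.Agent.H607
open Pool.Agent.H607.Mix (Q)

variable (p : Sch)

lemma conv {g e D a : ℝ} (ρ : ℕ) (hg : 0 < g) (hge : g ≤ (2 : ℝ) ^ e) (ha : 0 ≤ a) (hD : 0 ≤ D)
    (h : Real.exp (-a) ≤ g ^ ρ * D) : (2 : ℝ) ^ (-(ρ * e + 2 * a)) ≤ D := by
  have h1 : g ^ ρ ≤ (2 : ℝ) ^ (ρ * e) := by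
    calc g ^ ρ ≤ ((2 : ℝ) ^ e) ^ ρ := by gcongr
      _ = (2 : ℝ) ^ (ρ * e) := by
          rw [← Real.rpow_natCast, ← Real.rpow_mul (by norm_num)]
          congr 1
          ring
  have h2 : (2 : ℝ) ^ (-(2 * a)) ≤ Real.exp (-a) := by
    rw [Real.rpow_def_of_pos (by norm_num)]
    apply Real.exp_le_exp.2
    have := Real.log_two_gt_d9
    nlinarith
  have h3 : (2 : ℝ) ^ (-(ρ * e + 2 * a)) = (2 : ℝ) ^ (-(ρ * e)) * (2 : ℝ) ^ (-(2 * a)) := by
    rw [← Real.rpow_add (by norm_num)]
    congr 1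
    ring
  rw [h3]
  calc (2 : ℝ) ^ (-(ρ * e)) * (2 : ℝ) ^ (-(2 * a)) ≤ (2 : ℝ) ^ (-(ρ * e)) * (g ^ ρ * D) := by
        gcongr
        exact h2.trans h
    _ ≤ (2 : ℝ) ^ (-(ρ * e)) * ((2 : ℝ) ^ (ρ * e) * D) := by gcongr
    _ = D := by
        rw [← mul_assoc, ← Real.rpow_add (by norm_num)]
        simp

/-- the Diophantine property of the sequence `t`, relative to the schedule -/
def DioA (t : ℕ → ℝ) (ρ : ℕ) (η : ℝ) : Prop :=
  ∀ᶠ m : ℕ in atTop, ∀ g : ℕ, 1 ≤ g → Real.log g ≤ η * m → ∀ z : ℤ,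
    Real.exp (-(m / (p.v m.size : ℝ) ^ 2)) ≤ (g : ℝ) ^ ρ * |g * t m - z|

def DioB (t : ℕ → ℝ) (ρ : ℕ) (η : ℝ) : Prop :=
  ∀ᶠ m : ℕ in atTop, ∀ (g R d : ℕ), 1 ≤ g → 1 ≤ R → 1 ≤ d → Real.log g ≤ η * m → Real.log R ≤ η * m →
    (d : ℝ) ≤ η * m → ∀ z : ℤ,
    Real.exp (-(m / (p.v m.size : ℝ) ^ 2)) ≤ ((g : ℝ) ^ 2 * R) ^ ρ * |g * (t (m + d) * R - t m) - z|

lemma log_le_of_le_pow {g k : ℕ} (hg : 1 ≤ g) (h : g ≤ 2 ^ k) : Real.log g ≤ k := by
  have h1 : Real.log g ≤ k * Real.log 2 := by
    have h1 : (g : ℝ) ≤ 2 ^ k := by exact_mod_cast h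
    have h2 : (0 : ℝ) < g := by exact_mod_cast hg
    calc Real.log g ≤ Real.log (2 ^ k) := Real.log_le_log h2 h1
      _ = k * Real.log 2 := Real.log_pow _ _
  have h2 : Real.log 2 ≤ 1 := by have := Real.log_two_lt_d9; linarith
  have h3 : (0 : ℝ) ≤ k := Nat.cast_nonneg k
  nlinarith

lemma cast_pow_two (k : ℕ) : ((2 ^ k : ℕ) : ℝ) = (2 : ℝ) ^ (k : ℝ) := by
  rw [Real.rpow_natCast]
  push_cast
  rfl

theorem corr_small (hv : Tendsto p.v atTop atTop) {t : ℕ → ℝ} {ρ : ℕ} (hρ : 1 ≤ ρ) {η : ℝ} (hη : 0 < η)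
    (hη1 : η ≤ 1) (hA : DioA p t ρ η) (hB : DioB p t ρ η) :
    ∀ᶠ n' : ℕ in atTop, ∀ n < n', ‖∫ ω, cf p t n n' ω ∂(unif (wt p))‖ ≤ 1 / n' := by
  have hρR : (1 : ℝ) ≤ ρ := by exact_mod_cast hρ
  set δ : ℝ := η / (64 * ρ) with hδ
  have hδ0 : 0 < δ := by positivity
  have hρδ : ρ * δ = η / 64 := by rw [hδ]; field_simp
  have hδη : δ ≤ η / 64 := by
    rw [← hρδ]
    nlinarith
  have hδ1 : δ ≤ 1 / 64 := by linarith
  set κ : ℝ := δ * η / (1000 * ρ) with hκ
  have hκ0 : 0 < κ := by positivity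
  have hρκ : ρ * κ = δ * η / 1000 := by rw [hκ]; field_simp
  have hδη2 : δ * η ≤ δ := by nlinarith
  have hκδ : κ ≤ δ * η / 1000 := by
    rw [← hρκ]
    nlinarith
  obtain ⟨M₁, hM₁⟩ := eventually_atTop.1 hA
  obtain ⟨M₂, hM₂⟩ := eventually_atTop.1 hB
  have hvR : ∀ᶠ n : ℕ in atTop, 1 / κ ≤ (p.v n.size : ℝ) := by
    have h1 : Tendsto (fun n : ℕ => (p.v n.size : ℝ)) atTop atTop :=
      tendsto_natCast_atTop_atTop.comp (hv.comp size_tendsto)
    exact h1.eventually_ge_atTop _
  filter_upwards [hvR, er_small p (1 / κ), eventually_ge_atTop (2 * M₁ + 100), eventually_ge_atTop (2 * M₂ + 100)]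
    with n' hv' her hn1 hn2 n hn
  have hN100 : (100 : ℝ) ≤ n' := by exact_mod_cast (by omega : 100 ≤ n')
  set N : ℝ := (n' : ℝ) with hN
  set s := n'.size with hs
  set v : ℝ := (p.v s : ℝ) with hvdef
  have hv1 : (1 : ℝ) ≤ v := by
    rw [hvdef]
    exact_mod_cast p.one s
  have hv0 : 0 < v := by linarith
  set x : ℝ := N / v with hx
  have hx0 : 0 < x := by positivity
  set a : ℝ := N / v ^ 2 with ha
  have ha0 : 0 < a := by positivity
  set e := er p n' with he
  have he0 : 0 ≤ e := er_pos p n'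
  -- the basic inequalities
  have hκv : 1 ≤ κ * v := by
    rw [div_le_iff₀ hκ0] at hv'
    linarith
  have hax : a ≤ κ * x := by
    rw [ha, hx, div_le_iff₀ (by positivity)]
    have e1 : κ * (N / v) * v ^ 2 = N * (κ * v) := by field_simp
    rw [e1]
    exact le_mul_of_one_le_right (by linarith) hκv
  have hxN : x ≤ κ * N := by
    rw [hx, div_le_iff₀ hv0]
    have e1 : κ * N * v = N * (κ * v) := by ring
    rw [e1]
    exact le_mul_of_one_le_right (by linarith) hκv
  have hea : e ≤ κ * a := by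
    have h1 : e * v ^ 2 ≤ κ * N := by
      have h2 : 1 / κ * (e * v ^ 2) ≤ N := her
      rw [div_mul_eq_mul_div, one_mul, div_le_iff₀ hκ0] at h2
      linarith
    rw [ha, ← mul_div_assoc, le_div_iff₀ (by positivity)]
    exact h1
  have hκ1 : κ ≤ 1 := by linarith
  have hax1 : a ≤ x := hax.trans (mul_le_of_le_one_left hx0.le hκ1)
  have hex : e ≤ κ * x := hea.trans (mul_le_mul_of_nonneg_left hax1 hκ0.le)
  have hρa : ρ * a ≤ δ * η / 1000 * x := by
    calc ρ * a ≤ ρ * (κ * x) := by gcongr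
      _ = δ * η / 1000 * x := by rw [← mul_assoc, hρκ]
  have hρe : ρ * e ≤ δ * η / 1000 * x := by
    calc ρ * e ≤ ρ * (κ * x) := by gcongr
      _ = δ * η / 1000 * x := by rw [← mul_assoc, hρκ]
  have hdx : δ * η / 1000 * x ≤ δ / 1000 * x := by gcongr
  have hκx : κ * x ≤ δ * η / 1000 * x := mul_le_mul_of_nonneg_right hκδ hx0.le
  have hax' : a ≤ δ / 1000 * x := (hax.trans hκx).trans hdx
  have hex' : e ≤ δ / 1000 * x := (hex.trans hκx).trans hdx
  have hδx : δ * x ≤ 1 / 64 * x := by gcongr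
  have hxN' : x ≤ δ * η / 1000 * N := by
    calc x ≤ κ * N := hxN
      _ ≤ δ * η / 1000 * N := by gcongr
  have hxη : x ≤ η / 64000 * N := by
    calc x ≤ δ * η / 1000 * N := hxN'
      _ ≤ (1 / 64) * η / 1000 * N := by gcongr
      _ = η / 64000 * N := by ring
  -- the number `L`
  set L : ℕ := 3 * s with hL
  have hs1 : 7 ≤ s := by
    have h1 : 64 < 2 ^ s := lt_of_le_of_lt (by omega) (Nat.lt_size_self n')
    by_contra hlt
    push Not at hlt
    have : 2 ^ s ≤ 2 ^ 6 := Nat.pow_le_pow_right (by norm_num) (by omega)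
    omega
  have hLe : (L : ℝ) ≤ e := by
    rw [he]
    unfold er
    rw [← hs, hL]
    push_cast
    have h1 : (7 : ℝ) ≤ s := by exact_mod_cast hs1
    have h2 : (0 : ℝ) ≤ 2 ^ (s / 2) := by positivity
    have h3 : (s : ℝ) ^ 2 ≤ v * (s : ℝ) ^ 2 := le_mul_of_one_le_left (by positivity) hv1
    have h4 : 7 * (s : ℝ) ≤ (s : ℝ) ^ 2 := by nlinarith
    have h5 : v * (s : ℝ) ^ 2 = (p.v s : ℝ) * (s : ℝ) ^ 2 := rfl
    linarith
  have hfin : 3 * (2 : ℝ) ^ (-(L : ℝ)) ≤ (1 / N) ^ 2 := by
    have h1 : N ≤ (2 : ℝ) ^ s := by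
      have := (Nat.lt_size_self n').le
      rw [hN, hs]
      exact_mod_cast this
    have h2 : (2 : ℝ) ^ (-(L : ℝ)) = 1 / ((2 : ℝ) ^ s) ^ 3 := by
      rw [Real.rpow_neg (by norm_num), Real.rpow_natCast, hL, ← pow_mul, one_div]
      congr 2
      ring
    rw [h2, one_div_pow, ← mul_div_assoc, mul_one, div_le_div_iff₀ (by positivity) (by positivity), one_mul]
    calc 3 * N ^ 2 ≤ N * N ^ 2 := by gcongr; linarith
      _ = N ^ 3 := by ring
      _ ≤ ((2 : ℝ) ^ s) ^ 3 := by gcongr
  have hnn : (n : ℝ) ≤ N := by rw [hN]; exact_mod_cast hn.le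
  have hδN : δ * N ≤ 1 / 64 * N := mul_le_mul_of_nonneg_right hδ1 (by linarith)
  have hδηN : δ * N ≤ η / 64 * N := mul_le_mul_of_nonneg_right hδη (by linarith)
  have hηNN : η / 64000 * N ≤ η * N := by
    have : 0 ≤ η * N := by positivity
    linarith
  have hn0 : (0 : ℝ) ≤ n := Nat.cast_nonneg n
  -- the masses
  have hb : ∀ a' c' : ℕ, a' ≤ c' → c' ≤ n' → ((c' : ℝ) - a') / v - e ≤ W p a' c' ∧
      (W p a' c' : ℝ) ≤ 2 * (((c' : ℝ) - a') / v) + e ∧ (U p a' c' : ℝ) ≤ 4 * a + e := by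
    intro a' c' h1 h2
    obtain ⟨h3, h4, h5⟩ := bounds p h1 h2
    refine ⟨h3, ?_, ?_⟩
    · have : 2 * (((c' : ℝ) - a') / v) = 2 * ((c' : ℝ) - a') / v := by ring
      rw [this]
      exact h4
    · refine h5.trans ?_
      have h6 : (c' : ℝ) - a' ≤ N := by
        have h7 : (c' : ℝ) ≤ N := by rw [hN]; exact_mod_cast h2
        have h8 : (0 : ℝ) ≤ a' := Nat.cast_nonneg _
        linarith
      have h9 : 4 * ((c' : ℝ) - a') / v ^ 2 ≤ 4 * a := by
        rw [ha, ← mul_div_assoc]
        gcongr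
      linarith
  have hUadd : ∀ a' c' d' : ℕ, a' ≤ c' → c' ≤ d' → (U p a' d' : ℝ) = U p a' c' + U p c' d' := by
    intro a' c' d' h1 h2
    rw [U_eq, U_eq, U_eq]
    exact M_add p _ h1 h2
  have key : ‖∫ ω, cf p t n n' ω ∂(unif (wt p))‖ ^ 2 ≤ 3 * (2 : ℝ) ^ (-(L : ℝ)) := by
    rcases le_or_gt (n : ℝ) (δ * N) with hcase | hcase
    · -- far
      set c := n' / 2 with hc
      have hc1 : (c : ℝ) ≤ N / 2 := by rw [hc, hN]; exact Nat.cast_div_le
      have hc2 : N / 2 - 1 ≤ c := by
        have h2 : n' ≤ 2 * c + 2 := by omega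
        have h3 : (n' : ℝ) ≤ 2 * c + 2 := by exact_mod_cast h2
        linarith
      have hnc : n ≤ c := by
        have h3 : (n : ℝ) ≤ c := by linarith
        exact_mod_cast h3
      have hcn' : c ≤ n' := by omega
      obtain ⟨w1, w2, w3⟩ := hb n c hnc hcn'
      obtain ⟨y1, y2, y3⟩ := hb c n' hcn' le_rfl
      obtain ⟨z1, z2, z3⟩ := hb 0 n (Nat.zero_le n) hn.le
      obtain ⟨q1, q2, q3⟩ := hb n n' hn.le le_rfl
      have hU := hUadd n c n' hnc hcn'
      set Γ := 2 * U p c n' + 2 * U p n c + L with hΓ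
      have hΓR : (Γ : ℝ) = 2 * U p c n' + 2 * U p n c + L := by rw [hΓ]; push_cast; ring
      set B : ℝ := (Γ : ℝ) + W p 0 n + 2 * U p 0 n with hBdef
      -- lower bounds for the entropies
      have g1 : 1 / 4 * x - e ≤ W p n c := by
        have h1 : 1 / 4 * x ≤ ((c : ℝ) - n) / v := by
          rw [hx, ← mul_div_assoc]
          gcongr
          linarith
        linarith
      have g2 : 1 / 2 * x - e ≤ W p c n' := by
        have h1 : 1 / 2 * x ≤ ((n' : ℝ) - c) / v := by
          rw [hx, ← mul_div_assoc]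
          gcongr
          linarith
        linarith
      have g3 : (W p 0 n : ℝ) ≤ 2 * (δ * x) + e := by
        have h1 : ((n : ℝ) - ((0 : ℕ) : ℝ)) / v ≤ δ * x := by
          rw [hx, ← mul_div_assoc]
          gcongr
          push_cast
          linarith
        linarith
      have hΓb : (Γ : ℝ) ≤ 8 * a + 3 * e := by rw [hΓR]; linarith
      have hBb : B ≤ 16 * a + 6 * e + 2 * (δ * x) := by rw [hBdef]; linarith
      have hB0 : 0 ≤ B := by rw [hBdef]; positivity
      refine corr_far p t n n' c Γ hnc hcn' (ρ * B + 2 * a) L ?_ ?_ ?_ ?_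
      · intro ω g hg1 hg2 z
        set R := Q (wt p) (fac p) (E p 0 n) ω with hR
        have hR1 : 1 ≤ R := Q_pos p _ ω
        have hR2 : R ≤ 2 ^ (W p 0 n + 2 * U p 0 n) := Q_le p 0 n ω
        have hgR2 : g * R ≤ 2 ^ (Γ + (W p 0 n + 2 * U p 0 n)) := by
          rw [pow_add]
          exact Nat.mul_le_mul hg2 hR2
        have hgR1 : 1 ≤ g * R := Nat.one_le_iff_ne_zero.2 (by positivity)
        have hlog : Real.log ((g * R : ℕ) : ℝ) ≤ B := by
          have h1 := log_le_of_le_pow hgR1 hgR2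
          push_cast at h1 ⊢
          rw [hBdef]
          linarith
        have hk := hM₁ n' (by omega) (g * R) hgR1 (by
          refine hlog.trans ?_
          linarith) z
        have hk2 : Real.exp (-a) ≤ ((g * R : ℕ) : ℝ) ^ ρ * |((g * R : ℕ) : ℝ) * t n' - z| := hk
        have h8 : ((g * R : ℕ) : ℝ) * t n' - z = g * (t n' * (R : ℕ)) - z := by push_cast; ring
        rw [h8] at hk2
        refine conv ρ (by exact_mod_cast hgR1) ?_ ha0.le (abs_nonneg _) hk2
        have h9 : ((g * R : ℕ) : ℝ) ≤ ((2 ^ (Γ + (W p 0 n + 2 * U p 0 n)) : ℕ) : ℝ) := by exact_mod_cast hgR2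
        rw [cast_pow_two] at h9
        refine h9.trans (le_of_eq ?_)
        congr 1
        rw [hBdef]
        push_cast
        ring
      · rw [hΓR]
        linarith
      · linarith
      · have h1 : ρ * B ≤ ρ * (16 * a + 6 * e + 2 * (δ * x)) := by gcongr
        have h2 : ρ * (16 * a + 6 * e + 2 * (δ * x)) = 16 * (ρ * a) + 6 * (ρ * e) + 2 * ((ρ * δ) * x) := by
          ring
        rw [hρδ] at h2
        have h3 : η / 64 * x ≤ 1 / 64 * x := by gcongr
        linarith
    · rcases le_or_gt (n : ℝ) ((1 - δ) * N) with hcase2 | hcase2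
      · -- middle
        obtain ⟨w1, w2, w3⟩ := hb 0 n (Nat.zero_le n) hn.le
        obtain ⟨y1, y2, y3⟩ := hb n n' hn.le le_rfl
        obtain ⟨q1, q2, q3⟩ := hb 0 n' (Nat.zero_le n') le_rfl
        have hU := hUadd 0 n n' (Nat.zero_le n) hn.le
        set Γ := 2 * U p 0 n + 2 * U p n n' + L with hΓ
        have hΓR : (Γ : ℝ) = 2 * U p 0 n + 2 * U p n n' + L := by rw [hΓ]; push_cast; ring
        have g1 : δ * x - e ≤ W p n n' := by
          have h1 : δ * x ≤ ((n' : ℝ) - n) / v := by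
            rw [hx, ← mul_div_assoc]
            gcongr
            linarith
          linarith
        have g2 : δ * x - e ≤ W p 0 n := by
          have h1 : δ * x ≤ ((n : ℝ) - ((0 : ℕ) : ℝ)) / v := by
            rw [hx, ← mul_div_assoc]
            gcongr
            push_cast
            linarith
          linarith
        have hΓb : (Γ : ℝ) ≤ 8 * a + 3 * e := by rw [hΓR]; linarith
        refine corr_mid p t n n' Γ hn.le (ρ * (Γ : ℝ) + 2 * a) L ?_ ?_ ?_ ?_
        · intro g hg1 hg2 z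
          have hlog : Real.log (g : ℝ) ≤ Γ := log_le_of_le_pow hg1 hg2
          have hk := hM₁ n' (by omega) g hg1 (by
            refine hlog.trans ?_
            linarith) z
          have hk2 : Real.exp (-a) ≤ (g : ℝ) ^ ρ * |(g : ℝ) * t n' - z| := hk
          refine conv ρ (by exact_mod_cast hg1) ?_ ha0.le (abs_nonneg _) hk2
          have h9 : (g : ℝ) ≤ ((2 ^ Γ : ℕ) : ℝ) := by exact_mod_cast hg2
          rwa [cast_pow_two] at h9
        · rw [hΓR]
          linarith
        · linarith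
        · have h1 : ρ * (Γ : ℝ) ≤ ρ * (8 * a + 3 * e) := by gcongr
          have h2 : ρ * (8 * a + 3 * e) = 8 * (ρ * a) + 3 * (ρ * e) := by ring
          linarith
      · -- near
        set c := n / 2 with hc
        have hnN : 63 / 64 * N ≤ n := by linarith
        have hηn := mul_le_mul_of_nonneg_left hnN hη.le
        have hc1 : (c : ℝ) ≤ n / 2 := by rw [hc]; exact Nat.cast_div_le
        have hc2 : (n : ℝ) / 2 - 1 ≤ c := by
          have h2 : n ≤ 2 * c + 2 := by omega
          have h3 : (n : ℝ) ≤ 2 * c + 2 := by exact_mod_cast h2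
          linarith
        have hcn : c ≤ n := by omega
        obtain ⟨w1, w2, w3⟩ := hb 0 c (Nat.zero_le c) (hcn.trans hn.le)
        obtain ⟨y1, y2, y3⟩ := hb c n hcn hn.le
        obtain ⟨z1, z2, z3⟩ := hb n n' hn.le le_rfl
        obtain ⟨q1, q2, q3⟩ := hb 0 n (Nat.zero_le n) hn.le
        have hU := hUadd 0 c n (Nat.zero_le c) hcn
        set Γ := 2 * U p c n + 2 * U p 0 c + L with hΓ
        have hΓR : (Γ : ℝ) = 2 * U p c n + 2 * U p 0 c + L := by rw [hΓ]; push_cast; ring
        set B : ℝ := 2 * (Γ : ℝ) + W p n n' + 2 * U p n n' with hBdef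
        have g1 : 1 / 4 * x - e ≤ W p 0 c := by
          have h1 : 1 / 4 * x ≤ ((c : ℝ) - ((0 : ℕ) : ℝ)) / v := by
            rw [hx, ← mul_div_assoc]
            gcongr
            push_cast
            linarith
          linarith
        have g2 : 1 / 4 * x - e ≤ W p c n := by
          have h1 : 1 / 4 * x ≤ ((n : ℝ) - c) / v := by
            rw [hx, ← mul_div_assoc]
            gcongr
            linarith
          linarith
        have g3 : (W p n n' : ℝ) ≤ 2 * (δ * x) + e := by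
          have h1 : ((n' : ℝ) - n) / v ≤ δ * x := by
            rw [hx, ← mul_div_assoc]
            gcongr
            linarith
          linarith
        have hΓb : (Γ : ℝ) ≤ 8 * a + 3 * e := by rw [hΓR]; linarith
        have hBb : B ≤ 24 * a + 9 * e + 2 * (δ * x) := by rw [hBdef]; linarith
        have hB0 : 0 ≤ B := by rw [hBdef]; positivity
        -- the size of `n`
        have hvn : v ≤ 2 * (p.v n.size : ℝ) := by
          have h1 : n' < 2 * n := by
            have : (n' : ℝ) < 2 * n := by linarith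
            exact_mod_cast this
          have h2 : s ≤ n.size + 1 := by
            rw [hs]
            apply Nat.size_le.2
            have := Nat.lt_size_self n
            calc n' < 2 * n := h1
              _ < 2 * 2 ^ n.size := by omega
              _ = 2 ^ (n.size + 1) := by rw [pow_succ]; ring
          exact v_half p (by omega)
        have hn4 : (n : ℝ) / (p.v n.size : ℝ) ^ 2 ≤ 4 * a := by
          have hvn0 : (0 : ℝ) < (p.v n.size : ℝ) := by exact_mod_cast p.one _
          rw [ha, ← mul_div_assoc, div_le_div_iff₀ (by positivity) (by positivity)]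
          have h1 : v ^ 2 ≤ (2 * (p.v n.size : ℝ)) ^ 2 := by gcongr
          calc (n : ℝ) * v ^ 2 ≤ N * (2 * (p.v n.size : ℝ)) ^ 2 := by gcongr
            _ = 4 * N * (p.v n.size : ℝ) ^ 2 := by ring
        have hηN : η / 64000 * N ≤ η * n := by linarith
        refine corr_near p t n n' c Γ hcn hn.le (ρ * B + 2 * (4 * a)) L ?_ ?_ ?_ ?_
        · intro ω g hg1 hg2 z
          set R := Q (wt p) (fac p) (E p n n') ω with hR
          have hR1 : 1 ≤ R := Q_pos p _ ω
          have hR2 : R ≤ 2 ^ (W p n n' + 2 * U p n n') := Q_le p n n' ω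
          have hlogg : Real.log (g : ℝ) ≤ Γ := log_le_of_le_pow hg1 hg2
          have hlogR : Real.log (R : ℝ) ≤ W p n n' + 2 * U p n n' := by
            have := log_le_of_le_pow hR1 hR2
            push_cast at this
            exact this
          have hMn : M₂ ≤ n := by
            have : (2 * M₂ + 100 : ℝ) ≤ n' := by exact_mod_cast hn2
            have h2 : (M₂ : ℝ) ≤ n := by linarith
            exact_mod_cast h2
          have hk := hM₂ n hMn g R (n' - n) hg1 hR1 (by omega) (by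
            refine hlogg.trans ?_
            linarith) (by
            refine hlogR.trans ?_
            linarith) (by
            rw [Nat.cast_sub hn.le]
            have h1 : (n' : ℝ) - n ≤ δ * N := by linarith
            linarith) z
          have h5 : n + (n' - n) = n' := by omega
          rw [h5] at hk
          have hk2 : Real.exp (-(4 * a)) ≤ ((g : ℝ) ^ 2 * R) ^ ρ * |g * (t n' * (R : ℕ) - t n) - z| := by
            refine le_trans ?_ hk
            apply Real.exp_le_exp.2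
            linarith
          refine conv ρ (by
            have h1 : (1 : ℝ) ≤ g := by exact_mod_cast hg1
            have h2 : (1 : ℝ) ≤ R := by exact_mod_cast hR1
            positivity) ?_ (by positivity) (abs_nonneg _) hk2
          have h9 : (g : ℝ) ≤ ((2 ^ Γ : ℕ) : ℝ) := by exact_mod_cast hg2
          have h10 : (R : ℝ) ≤ ((2 ^ (W p n n' + 2 * U p n n') : ℕ) : ℝ) := by exact_mod_cast hR2
          rw [cast_pow_two] at h9 h10
          calc (g : ℝ) ^ 2 * R ≤ ((2 : ℝ) ^ (Γ : ℝ)) ^ 2 * (2 : ℝ) ^ (((W p n n' + 2 * U p n n' : ℕ)) : ℝ) := by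
                gcongr
            _ = (2 : ℝ) ^ B := by
                rw [← Real.rpow_natCast, ← Real.rpow_mul (by norm_num), ← Real.rpow_add (by norm_num)]
                congr 1
                rw [hBdef]
                push_cast
                ring
        · rw [hΓR]
          linarith
        · linarith
        · have h1 : ρ * B ≤ ρ * (24 * a + 9 * e + 2 * (δ * x)) := by gcongr
          have h2 : ρ * (24 * a + 9 * e + 2 * (δ * x)) = 24 * (ρ * a) + 9 * (ρ * e) + 2 * ((ρ * δ) * x) := by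
            ring
          rw [hρδ] at h2
          have h3 : η / 64 * x ≤ 1 / 64 * x := by gcongr
          linarith
  have h1 := key.trans hfin
  exact (pow_le_pow_iff_left₀ (norm_nonneg _) (by positivity) (by norm_num)).1 h1

end Pool.Agent.H607.Uni
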