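import Pool.Agent.H607.Mix.Plan
import Mathlib

/-!
# A schedule of exceptional places with slowly growing parameters
-/

set_option autoImplicit false

namespace Pool.Agent.H607.Uni

open Finset Filter Topology
open Pool.Agent.H607.Mix (Q prime_lower size_block)

/-- the number of the multiples of `r` in an interval -/
lemma dvd_count (a c r : ℕ) (hr : 0 < r) (h : a ≤ c) :
    |(((Ico a c).filter (fun i => r ∣ i)).card : ℝ) - ((c : ℝ) - a) / r| ≤ 1 := by
  have h1 := Nat.Ico_filter_modEq_card a c hr 0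
  simp only [Nat.modEq_zero_iff_dvd, Nat.cast_zero, sub_zero] at h1
  have h2 : (⌈(a : ℚ) / r⌉ : ℤ) ≤ ⌈(c : ℚ) / r⌉ := by gcongr
  rw [max_eq_left (by omega)] at h1
  have h3 : (((Ico a c).filter (fun i => r ∣ i)).card : ℚ) = (⌈(c : ℚ) / r⌉ : ℤ) - (⌈(a : ℚ) / r⌉ : ℤ) := by
    exact_mod_cast h1
  have h4 := Int.le_ceil ((c : ℚ) / r)
  have h5 := Int.ceil_lt_add_one ((c : ℚ) / r)
  have h6 := Int.le_ceil ((a : ℚ) / r)
  have h7 := Int.ceil_lt_add_one ((a : ℚ) / r)
  have h8 : |(((Ico a c).filter (fun i => r ∣ i)).card : ℚ) - ((c : ℚ) - a) / r| ≤ 1 := by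
    rw [h3, sub_div, abs_le]
    constructor <;> linarith
  have h9 : (((|(((Ico a c).filter (fun i => r ∣ i)).card : ℚ) - ((c : ℚ) - a) / r| : ℚ)) : ℝ) ≤ ((1 : ℚ) : ℝ) :=
    Rat.cast_le.2 h8
  rw [Rat.cast_abs] at h9
  push_cast at h9
  exact h9

/-- a slowly growing function -/
structure Sch where
  v : ℕ → ℕ
  mono : Monotone v
  one : ∀ s, 1 ≤ v s
  le : ∀ s, 1 ≤ s → v s ≤ s
  slow : ∀ s, v s ≤ 2 * v (s / 2)

variable (p : Sch)

/-- the exceptional places -/
def Exc (n : ℕ) : Prop := 8 ≤ n.size ∧ p.v n.size ^ 2 * n.size ∣ n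

instance : DecidablePred (Exc p) := fun n => by unfold Exc; infer_instance

/-- the number of choices -/
def wt (n : ℕ) : ℕ := if Exc p n then 2 ^ (p.v n.size * n.size) else 1

instance (n : ℕ) : NeZero (wt p n) := ⟨by unfold wt; split_ifs <;> positivity⟩

/-- the factors -/
noncomputable def fac (n : ℕ) (a : Fin (wt p n)) : ℕ :=
  if Exc p n then Nat.nth Nat.Prime (n * wt p n + a) else 1

lemma two_pow_ge : ∀ u, 8 ≤ u → 2 * (u + 2) * u ≤ 2 ^ u := by
  intro u hu
  induction u, hu using Nat.le_induction with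
  | base => norm_num
  | succ u hu ih =>
    rw [pow_succ]
    nlinarith

lemma idx_lt {n : ℕ} (hn : Exc p n) (a : Fin (wt p n)) :
    n * wt p n + a < Nat.count Nat.Prime (2 ^ ((p.v n.size + 2) * n.size)) := by
  have hw : wt p n = 2 ^ (p.v n.size * n.size) := by unfold wt; rw [if_pos hn]
  have h1 : n + 1 ≤ 2 ^ n.size := Nat.lt_size_self n
  have h2 : (a : ℕ) < 2 ^ (p.v n.size * n.size) := by
    have := a.2
    omega
  have hsz8 : 8 ≤ n.size := hn.1
  have hvs := p.le n.size (by omega)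
  have hs : 2 * (p.v n.size + 2) * n.size ≤ 2 ^ n.size := by
    refine le_trans ?_ (two_pow_ge n.size hsz8)
    gcongr
  have hsz : 1 ≤ n.size := by omega
  have h3 := prime_lower ((p.v n.size + 2) * n.size) (by nlinarith)
  set c := Nat.count Nat.Prime (2 ^ ((p.v n.size + 2) * n.size)) with hc
  have h4 : n * wt p n + a < 2 ^ ((p.v n.size + 1) * n.size) := by
    have e0 : n * wt p n = n * 2 ^ (p.v n.size * n.size) := by rw [hw]
    calc n * wt p n + a < n * 2 ^ (p.v n.size * n.size) + 2 ^ (p.v n.size * n.size) := by omega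
      _ = (n + 1) * 2 ^ (p.v n.size * n.size) := by ring
      _ ≤ 2 ^ n.size * 2 ^ (p.v n.size * n.size) := Nat.mul_le_mul_right _ h1
      _ = 2 ^ ((p.v n.size + 1) * n.size) := by rw [← pow_add]; congr 1; ring
  refine h4.trans_le ?_
  by_contra hlt
  push Not at hlt
  have h5 : 2 + c < 2 * 2 ^ ((p.v n.size + 1) * n.size) := by
    have h6 : 2 ^ 1 ≤ 2 ^ ((p.v n.size + 1) * n.size) := Nat.pow_le_pow_right (by norm_num) (by nlinarith)
    omega
  have h6 : (p.v n.size + 2) * n.size * (2 + c) <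
      (p.v n.size + 2) * n.size * (2 * 2 ^ ((p.v n.size + 1) * n.size)) :=
    Nat.mul_lt_mul_of_pos_left h5 (by positivity)
  have h7 : (p.v n.size + 2) * n.size * (2 * 2 ^ ((p.v n.size + 1) * n.size)) ≤
      2 ^ ((p.v n.size + 2) * n.size) := by
    calc (p.v n.size + 2) * n.size * (2 * 2 ^ ((p.v n.size + 1) * n.size)) =
        (2 * (p.v n.size + 2) * n.size) * 2 ^ ((p.v n.size + 1) * n.size) := by ring
      _ ≤ 2 ^ n.size * 2 ^ ((p.v n.size + 1) * n.size) := Nat.mul_le_mul_right _ hs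
      _ = 2 ^ ((p.v n.size + 2) * n.size) := by rw [← pow_add]; congr 1; ring
  omega

lemma fac_prime {n : ℕ} (hn : Exc p n) (a : Fin (wt p n)) : (fac p n a).Prime := by
  unfold fac
  rw [if_pos hn]
  exact Nat.nth_mem_of_infinite Nat.infinite_setOfPred_prime _

lemma fac_lt {n : ℕ} (hn : Exc p n) (a : Fin (wt p n)) :
    fac p n a < 2 ^ ((p.v n.size + 2) * n.size) := by
  unfold fac
  rw [if_pos hn]
  exact Nat.nth_lt_of_lt_count (idx_lt p hn a)

lemma fac_pos (n : ℕ) (a : Fin (wt p n)) : 1 ≤ fac p n a := by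
  by_cases hn : Exc p n
  · exact (fac_prime p hn a).one_le
  · unfold fac
    rw [if_neg hn]

lemma wt_mono {m n : ℕ} (hm : Exc p m) (hn : Exc p n) (h : m ≤ n) : wt p m ≤ wt p n := by
  unfold wt
  rw [if_pos hm, if_pos hn]
  exact Nat.pow_le_pow_right (by norm_num)
    (Nat.mul_le_mul (p.mono (Nat.size_le_size h)) (Nat.size_le_size h))

lemma idx_inj {m n : ℕ} (hm : Exc p m) (hn : Exc p n) (a : Fin (wt p m)) (a' : Fin (wt p n))
    (h : m * wt p m + a = n * wt p n + a') : m = n := by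
  by_contra hne
  rcases lt_or_gt_of_ne hne with hlt | hlt
  · have h1 := wt_mono p hm hn hlt.le
    have h2 := a.2
    have h3 : (m + 1) * wt p m ≤ n * wt p n := Nat.mul_le_mul hlt h1
    have h4 : (m + 1) * wt p m = m * wt p m + wt p m := by ring
    omega
  · have h1 := wt_mono p hn hm hlt.le
    have h2 := a'.2
    have h3 : (n + 1) * wt p n ≤ m * wt p m := Nat.mul_le_mul hlt h1
    have h4 : (n + 1) * wt p n = n * wt p n + wt p n := by ring
    omega

/-- the product of the factors determines the factors -/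
lemma inj (J : Finset ℕ) (hJ : ∀ i ∈ J, Exc p i) (ω ω' : ∀ i, Fin (wt p i))
    (h : Q (wt p) (fac p) J ω = Q (wt p) (fac p) J ω') : ∀ i ∈ J, ω i = ω' i := by
  intro i hi
  have hp := fac_prime p (hJ i hi) (ω i)
  have h1 : fac p i (ω i) ∣ Q (wt p) (fac p) J ω' := by
    rw [← h]
    exact dvd_prod_of_mem (fun i => fac p i (ω i)) hi
  unfold Q at h1
  rw [Prime.dvd_finsetProd_iff hp.prime] at h1
  obtain ⟨j, hj, h2⟩ := h1
  have h3 := (Nat.prime_dvd_prime_iff_eq hp (fac_prime p (hJ j hj) (ω' j))).1 h2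
  unfold fac at h3
  rw [if_pos (hJ i hi), if_pos (hJ j hj)] at h3
  have h4 := Nat.nth_injective Nat.infinite_setOfPred_prime h3
  have h5 := idx_inj p (hJ i hi) (hJ j hj) _ _ h4
  subst h5
  have h6 : (ω i : ℕ) = ω' i := by omega
  exact Fin.ext h6

/-- the exceptional places in an interval -/
def E (a c : ℕ) : Finset ℕ := (Ico a c).filter (Exc p)

/-- the mass of an interval of places -/
def U (a c : ℕ) : ℕ := ∑ i ∈ E p a c, i.size

/-- the entropy of an interval of places -/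
def W (a c : ℕ) : ℕ := ∑ i ∈ E p a c, p.v i.size * i.size

lemma E_exc (a c : ℕ) : ∀ i ∈ E p a c, Exc p i := fun _ hi => (mem_filter.1 hi).2

lemma E_disj {a c d : ℕ} : Disjoint (E p a c) (E p c d) := by
  unfold E
  rw [disjoint_left]
  intro i hi hi'
  rw [mem_filter, mem_Ico] at hi hi'
  omega

lemma E_union {a c d : ℕ} (h1 : a ≤ c) (h2 : c ≤ d) : E p a d = E p a c ∪ E p c d := by
  unfold E
  rw [← filter_union, Ico_union_Ico_eq_Ico h1 h2]

lemma Q_split {a c d : ℕ} (h1 : a ≤ c) (h2 : c ≤ d) (ω : ∀ i, Fin (wt p i)) :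
    Q (wt p) (fac p) (E p a d) ω = Q (wt p) (fac p) (E p a c) ω * Q (wt p) (fac p) (E p c d) ω := by
  rw [E_union p h1 h2]
  unfold Q
  exact prod_union (E_disj p)

lemma Q_pos (J : Finset ℕ) (ω : ∀ i, Fin (wt p i)) : 1 ≤ Q (wt p) (fac p) J ω := by
  unfold Q
  exact Finset.one_le_prod' fun i _ => fac_pos p i _

lemma Q_le (a c : ℕ) (ω : ∀ i, Fin (wt p i)) :
    Q (wt p) (fac p) (E p a c) ω ≤ 2 ^ (W p a c + 2 * U p a c) := by
  unfold W U
  rw [mul_sum, ← sum_add_distrib, ← prod_pow_eq_pow_sum]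
  unfold Q
  apply prod_le_prod' fun i hi => ?_
  have hi' : Exc p i := (mem_filter.1 hi).2
  have h1 := (fac_lt p hi' (ω i)).le
  have h2 : (p.v i.size + 2) * i.size = p.v i.size * i.size + 2 * i.size := by ring
  rwa [h2] at h1

lemma wt_prod (a c : ℕ) : ∏ i ∈ E p a c, (1 / (wt p i : ℝ)) = 1 / 2 ^ (W p a c) := by
  unfold W
  rw [← prod_pow_eq_pow_sum, prod_div_distrib, prod_const_one]
  congr 1
  refine prod_congr rfl fun i hi => ?_
  have hi' : Exc p i := (mem_filter.1 hi).2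
  unfold wt
  rw [if_pos hi']
  push_cast
  rfl

/-- the general mass with the weight `h (size)` -/
noncomputable def M (h : ℕ → ℝ) (a c : ℕ) : ℝ := ∑ i ∈ E p a c, h i.size * i.size

/-- the corresponding smooth mass -/
noncomputable def F (h : ℕ → ℝ) (a c : ℕ) : ℝ := ∑ i ∈ Ico a c, h i.size / (p.v i.size : ℝ) ^ 2

lemma M_add (h : ℕ → ℝ) {a c d : ℕ} (h1 : a ≤ c) (h2 : c ≤ d) :
    M p h a d = M p h a c + M p h c d := by
  unfold M
  rw [E_union p h1 h2, sum_union (E_disj p)]

lemma F_add (h : ℕ → ℝ) {a c d : ℕ} (h1 : a ≤ c) (h2 : c ≤ d) :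
    F p h a d = F p h a c + F p h c d := by
  unfold F
  exact (sum_Ico_consecutive _ h1 h2).symm

/-- comparison inside of a dyadic block -/
lemma block (h : ℕ → ℝ) (hh : ∀ s, 0 ≤ h s) (j a c : ℕ) (hj : 7 ≤ j) (ha : 2 ^ j ≤ a) (hac : a ≤ c)
    (hc : c ≤ 2 ^ (j + 1)) : |M p h a c - F p h a c| ≤ h (j + 1) * (j + 1) := by
  set s := j + 1 with hs
  have hsz : ∀ i ∈ Ico a c, i.size = s := fun i hi => by
    rw [mem_Ico] at hi
    exact size_block (ha.trans hi.1) (hi.2.trans_le hc)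
  set r := p.v s ^ 2 * s with hr
  have hv1 := p.one s
  have hr0 : 0 < r := by positivity
  have hM : M p h a c = (((Ico a c).filter (fun i => r ∣ i)).card : ℝ) * (h s * s) := by
    unfold M E
    rw [← nsmul_eq_mul, ← sum_const]
    have e1 : (Ico a c).filter (Exc p) = (Ico a c).filter (fun i => r ∣ i) := by
      apply filter_congr
      intro i hi
      unfold Exc
      rw [hsz i hi]
      exact ⟨fun h => h.2, fun h => ⟨by omega, h⟩⟩
    rw [e1]
    refine sum_congr rfl fun i hi => ?_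
    rw [hsz i (mem_filter.1 hi).1]
  have hF : F p h a c = ((c : ℝ) - a) * (h s / (p.v s : ℝ) ^ 2) := by
    unfold F
    rw [sum_congr rfl fun i hi => by rw [hsz i hi], sum_const, Nat.card_Ico, nsmul_eq_mul,
      Nat.cast_sub hac]
  have hcount := dvd_count a c r hr0 hac
  have hvR : (0 : ℝ) < (p.v s : ℝ) := by exact_mod_cast hv1
  have hsR : (0 : ℝ) < (s : ℝ) := by rw [hs]; positivity
  have e2 : M p h a c - F p h a c =
      ((((Ico a c).filter (fun i => r ∣ i)).card : ℝ) - ((c : ℝ) - a) / r) * (h s * s) := by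
    rw [hM, hF, hr]
    push_cast
    field_simp
  rw [e2, abs_mul, abs_of_nonneg (mul_nonneg (hh s) hsR.le)]
  calc _ ≤ 1 * (h s * s) := mul_le_mul_of_nonneg_right hcount (mul_nonneg (hh s) hsR.le)
    _ = h s * ((j : ℝ) + 1) := by rw [one_mul, hs]; push_cast; ring

/-- comparison from the beginning -/
lemma cmp (h : ℕ → ℝ) (hh : ∀ s, 0 ≤ h s) (hm : Monotone h) (hb : ∀ s, h s ≤ (p.v s : ℝ) ^ 2) (j : ℕ) :
    ∀ n, n ≤ 2 ^ j → |M p h 0 n - F p h 0 n| ≤ 128 + h j * j ^ 2 := by
  have hF0 : ∀ n, n ≤ 128 → 0 ≤ F p h 0 n ∧ F p h 0 n ≤ 128 := fun n hn => by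
    constructor
    · exact sum_nonneg fun i _ => div_nonneg (hh _) (by positivity)
    · unfold F
      calc ∑ i ∈ Ico 0 n, h i.size / (p.v i.size : ℝ) ^ 2 ≤ ∑ i ∈ Ico 0 n, (1 : ℝ) := by
            apply sum_le_sum fun i _ => ?_
            have hv : (0 : ℝ) < (p.v i.size : ℝ) := by exact_mod_cast p.one _
            rw [div_le_one (by positivity)]
            exact hb _
        _ = n := by simp
        _ ≤ 128 := by exact_mod_cast hn
  have hM0 : ∀ n, n ≤ 128 → M p h 0 n = 0 := fun n hn => by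
    unfold M
    apply sum_eq_zero
    intro i hi
    exfalso
    unfold E at hi
    rw [mem_filter, mem_Ico] at hi
    have h1 : i < 2 ^ 7 := by norm_num; omega
    have h2 : i.size ≤ 7 := Nat.size_le.2 h1
    have h3 := hi.2.1
    omega
  induction j with
  | zero =>
    intro n hn
    rw [pow_zero] at hn
    rw [hM0 n (by omega)]
    obtain ⟨h1, h2⟩ := hF0 n (by omega)
    rw [zero_sub, abs_neg, abs_of_nonneg h1]
    simpa using h2
  | succ j ih =>
    intro n hn
    have hmon : h j * (j : ℝ) ^ 2 ≤ h (j + 1) * ((j : ℝ) + 1) ^ 2 := by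
      apply mul_le_mul (hm (by omega)) _ (by positivity) (hh _)
      gcongr
      linarith
    rcases le_or_gt n (2 ^ j) with h1 | h1
    · have h2 := ih n h1
      push_cast
      linarith
    · rcases lt_or_ge j 7 with hj | hj
      · have hn' : n ≤ 128 := hn.trans (by
          calc 2 ^ (j + 1) ≤ 2 ^ 7 := Nat.pow_le_pow_right (by norm_num) (by omega)
            _ = 128 := by norm_num)
        rw [hM0 n hn']
        obtain ⟨h3, h4⟩ := hF0 n hn'
        rw [zero_sub, abs_neg, abs_of_nonneg h3]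
        have : 0 ≤ h (j + 1) * (((j + 1 : ℕ) : ℝ)) ^ 2 := mul_nonneg (hh _) (by positivity)
        linarith
      · have h2 := ih (2 ^ j) le_rfl
        have h3 := block p h hh j (2 ^ j) n hj le_rfl h1.le hn
        rw [M_add p h (Nat.zero_le _) h1.le, F_add p h (Nat.zero_le _) h1.le]
        have h4 : M p h 0 (2 ^ j) + M p h (2 ^ j) n - (F p h 0 (2 ^ j) + F p h (2 ^ j) n) =
            (M p h 0 (2 ^ j) - F p h 0 (2 ^ j)) + (M p h (2 ^ j) n - F p h (2 ^ j) n) := by ring
        rw [h4]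
        refine (abs_add_le _ _).trans ?_
        have h5 : h j ≤ h (j + 1) := hm (by omega)
        have h6 : (0 : ℝ) ≤ j := Nat.cast_nonneg j
        have h7 := hh (j + 1)
        have h8 : h j * (j : ℝ) ^ 2 ≤ h (j + 1) * (j : ℝ) ^ 2 := by gcongr
        push_cast
        have h9 : h (j + 1) * ((j : ℝ) + 1) ^ 2 = h (j + 1) * (j : ℝ) ^ 2 + h (j + 1) * (j + 1) +
            h (j + 1) * j := by ring
        have h10 : 0 ≤ h (j + 1) * (j : ℝ) := by positivity
        linarith

end Pool.Agent.H607.Uni
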