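import Pool.Graph.R_pool_sql_team_seeded_843ab51a.V11270.Sub.Cor
import Mathlib

/-!
# The subspace theorem for sums of `S`-units with small multipliers
-/

set_option autoImplicit false

namespace Pool.Agent.H607.Uni

open Finset Filter Topology
open Pool.Agent.V11270.Sub (sub_inf)

lemma det_shape (s : ℕ) (w : Fin s → ℝ) :
    (Matrix.of (fun i j : Fin (s + 1) => (Fin.cases (Fin.cases (-1) w j)
      (fun i' => if i'.succ = j then 1 else 0) i : ℝ)) : Matrix (Fin (s + 1)) (Fin (s + 1)) ℝ).det ≠ 0 := by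
  rw [Matrix.det_of_upperTriangular]
  · rw [Fin.prod_univ_succ]
    simp
  · intro i j hij
    simp only [id] at hij
    induction i using Fin.cases with
    | zero => exact absurd hij (Fin.not_lt_zero j)
    | succ i' =>
      simp only [Matrix.of_apply, Fin.cases_succ]
      rw [if_neg]
      intro h
      rw [h] at hij
      exact lt_irrefl _ hij

theorem sub_fin {s : ℕ} (y : Fin s → ℝ) (hy : ∀ i, IsAlgebraic ℚ (y i)) {ι : Type} [Fintype ι]
    (lam0 : ι → ℕ) (hlam0 : ∀ v, 1 ≤ lam0 v) (lam : ι → Fin s → ℕ) (hlam : ∀ v i, 1 ≤ lam v i)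
    (kk : ℕ → ι → ℕ) (c ε : ℝ) (hc : 0 ≤ c) (hε : 0 < ε) (h : ℕ → Fin s → ℕ) (z : ℕ → ℤ) (S : Set ℕ)
    (hS : S.Infinite) (hs : 1 ≤ s)
    (h1 : ∀ m ∈ S, ∀ i, 1 ≤ h m i) (hh : ∀ m ∈ S, ∀ i, Real.log (h m i) ≤ c * m)
    (hk : ∀ m ∈ S, ∀ v, (kk m v : ℝ) ≤ c * m)
    (hb : ∀ m ∈ S, |∑ i, y i * (h m i * ∏ v, (lam v i : ℝ) ^ kk m v) - z m * ∏ v, (lam0 v : ℝ) ^ kk m v| ≤
      (∏ v, (lam0 v : ℝ) ^ kk m v) * Real.exp (-(ε * m)) / ∏ i, (h m i : ℝ)) :
    ∃ (u0 : ℤ) (u : Fin s → ℤ), (u0 ≠ 0 ∨ u ≠ 0) ∧ {m ∈ S | (u0 : ℝ) * (z m * ∏ v, (lam0 v : ℝ) ^ kk m v) +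
      ∑ i, (u i : ℝ) * (h m i * ∏ v, (lam v i : ℝ) ^ kk m v) = 0}.Infinite := by
  classical
  set P0 : ℕ → ℝ := fun m => ∏ v, (lam0 v : ℝ) ^ kk m v with hP0
  set P : ℕ → Fin s → ℝ := fun m i => ∏ v, (lam v i : ℝ) ^ kk m v with hP
  have hl0 : ∀ v, (1 : ℝ) ≤ lam0 v := fun v => by exact_mod_cast hlam0 v
  have hl : ∀ v i, (1 : ℝ) ≤ lam v i := fun v i => by exact_mod_cast hlam v i
  have hP0p : ∀ m, 0 < P0 m := fun m => prod_pos fun v _ => by have := hl0 v; positivity
  have hPp : ∀ m i, 0 < P m i := fun m i => prod_pos fun v _ => by have := hl v i; positivity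
  have hlogP0 : ∀ m, Real.log (P0 m) = ∑ v, kk m v * Real.log (lam0 v) := fun m => by
    rw [hP0, Real.log_prod fun v _ => by have := hl0 v; positivity]
    exact sum_congr rfl fun v _ => Real.log_pow _ _
  have hlogP : ∀ m i, Real.log (P m i) = ∑ v, kk m v * Real.log (lam v i) := fun m i => by
    rw [hP, Real.log_prod fun v _ => by have := hl v i; positivity]
    exact sum_congr rfl fun v _ => Real.log_pow _ _
  set Λ : ℝ := ∑ v, (Real.log (lam0 v) + ∑ i, Real.log (lam v i)) with hΛ
  have hlog0 : ∀ v, 0 ≤ Real.log (lam0 v) := fun v => Real.log_nonneg (hl0 v)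
  have hlog1 : ∀ v i, 0 ≤ Real.log (lam v i) := fun v i => Real.log_nonneg (hl v i)
  have hΛ0 : 0 ≤ Λ := sum_nonneg fun v _ => add_nonneg (hlog0 v) (sum_nonneg fun i _ => hlog1 v i)
  have hcm : ∀ m : ℕ, 0 ≤ c * m := fun m => by positivity
  -- all the logarithms together
  have htot : ∀ m ∈ S, Real.log (P0 m) + ∑ i, Real.log (P m i) ≤ c * m * Λ := by
    intro m hm
    rw [hlogP0, hΛ, mul_sum]
    simp only [hlogP]
    rw [sum_comm, ← sum_add_distrib]
    apply sum_le_sum fun v _ => ?_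
    rw [← mul_sum, ← mul_add]
    exact mul_le_mul_of_nonneg_right (hk m hm v)
      (add_nonneg (hlog0 v) (sum_nonneg fun i _ => hlog1 v i))
  have hP0n : ∀ m, 0 ≤ Real.log (P0 m) := fun m => by
    rw [hlogP0]
    exact sum_nonneg fun v _ => mul_nonneg (Nat.cast_nonneg _) (hlog0 v)
  have hPn : ∀ m i, 0 ≤ Real.log (P m i) := fun m i => by
    rw [hlogP]
    exact sum_nonneg fun v _ => mul_nonneg (Nat.cast_nonneg _) (hlog1 v i)
  have hP0le : ∀ m ∈ S, Real.log (P0 m) ≤ c * m * Λ := fun m hm => by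
    have := htot m hm
    have h2 : 0 ≤ ∑ i, Real.log (P m i) := sum_nonneg fun i _ => hPn m i
    linarith
  have hPle : ∀ m ∈ S, ∀ i, Real.log (P m i) ≤ c * m * Λ := fun m hm i => by
    have h1 := htot m hm
    have h2 : Real.log (P m i) ≤ ∑ i, Real.log (P m i) :=
      single_le_sum (f := fun i => Real.log (P m i)) (fun i _ => hPn m i) (mem_univ i)
    have h3 := hP0n m
    linarith
  have hhR : ∀ m ∈ S, ∀ i, (1 : ℝ) ≤ h m i := fun m hm i => by exact_mod_cast h1 m hm i
  have hhn : ∀ m ∈ S, ∀ i, 0 ≤ Real.log (h m i) := fun m hm i => Real.log_nonneg (hhR m hm i)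
  set H : ℕ → ℝ := fun m => ∏ i, (h m i : ℝ) with hH
  have hHp : ∀ m ∈ S, 0 < H m := fun m hm => prod_pos fun i _ => by have := hhR m hm i; positivity
  have hlogH : ∀ m ∈ S, Real.log (H m) = ∑ i, Real.log (h m i) := fun m hm => by
    rw [hH, Real.log_prod fun i _ => by have := hhR m hm i; positivity]
  have hHle : ∀ m ∈ S, Real.log (H m) ≤ s * (c * m) := fun m hm => by
    rw [hlogH m hm]
    calc ∑ i, Real.log (h m i) ≤ ∑ i : Fin s, c * m := sum_le_sum fun i _ => hh m hm i
      _ = s * (c * m) := by simp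
  have hHn : ∀ m ∈ S, 0 ≤ Real.log (H m) := fun m hm => by
    rw [hlogH m hm]
    exact sum_nonneg fun i _ => hhn m hm i
  obtain ⟨w, hw, hwinf⟩ := sub_inf (n := s + 1) (by omega)
    (Matrix.of (fun i j : Fin (s + 1) => (Fin.cases (Fin.cases (-1) y j)
      (fun i' => if i'.succ = j then 1 else 0) i : ℝ)) : Matrix (Fin (s + 1)) (Fin (s + 1)) ℝ)
    (by
      intro i j
      induction i using Fin.cases with
      | zero =>
        induction j using Fin.cases with
        | zero => simpa using (isAlgebraic_one (R := ℚ) (A := ℝ)).neg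
        | succ j' => simpa using hy j'
      | succ i' =>
        simp only [Matrix.of_apply, Fin.cases_succ]
        split_ifs
        · exact isAlgebraic_one
        · exact isAlgebraic_zero)
    (det_shape s y) (ι := ι)
    (fun v l => (Fin.cases (lam0 v : ℤ) (fun i => (lam v i : ℤ)) l : ℤ))
    (by
      intro v l
      induction l using Fin.cases with
      | zero => simp only [Fin.cases_zero]; have := hlam0 v; omega
      | succ i => simp only [Fin.cases_succ]; have := hlam v i; omega)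
    kk (c * Λ + s * c + ε + c) ε hε
    (fun m l => (Fin.cases (P0 m * Real.exp (-(ε * m)) / H m) (fun i => h m i * P m i) l : ℝ))
    (fun m l => (Fin.cases (z m * ∏ v, (lam0 v : ℤ) ^ kk m v)
      (fun i => (h m i : ℤ) * ∏ v, (lam v i : ℤ) ^ kk m v) l : ℤ)) S hS
    (by
      intro m hm h0
      have h2 := congrFun h0 (Fin.succ ⟨0, by omega⟩)
      simp only [Fin.cases_succ, Pi.zero_apply, mul_eq_zero] at h2
      rcases h2 with h2 | h2
      · have := h1 m hm ⟨0, by omega⟩
        omega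
      · have h3 : (0 : ℤ) < ∏ v, (lam v ⟨0, by omega⟩ : ℤ) ^ kk m v :=
          prod_pos fun v _ => by
            have := hlam v ⟨0, by omega⟩
            have h4 : (0 : ℤ) < (lam v ⟨0, by omega⟩ : ℤ) := by omega
            positivity
        omega)
    (by
      intro m hm l
      induction l using Fin.cases with
      | zero => simp only [Fin.cases_zero]; exact Dvd.intro_left _ rfl
      | succ i => simp only [Fin.cases_succ]; exact Dvd.intro_left _ rfl)
    (by
      intro m hm l
      induction l using Fin.cases with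
      | zero =>
        simp only [Matrix.of_apply, Fin.cases_zero]
        rw [Fin.sum_univ_succ]
        simp only [Fin.cases_zero, Fin.cases_succ]
        have h2 := hb m hm
        have e1 : -1 * ((z m * ∏ v, (lam0 v : ℤ) ^ kk m v : ℤ) : ℝ) +
            ∑ i, y i * (((h m i : ℤ) * ∏ v, (lam v i : ℤ) ^ kk m v : ℤ) : ℝ) =
            ∑ i, y i * (h m i * ∏ v, (lam v i : ℝ) ^ kk m v) - z m * ∏ v, (lam0 v : ℝ) ^ kk m v := by
          push_cast
          ring
        rw [e1]
        exact h2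
      | succ i =>
        simp only [Matrix.of_apply, Fin.cases_succ]
        have e1 : ∑ j : Fin (s + 1), (if i.succ = j then (1 : ℝ) else 0) *
            ((Fin.cases (z m * ∏ v, (lam0 v : ℤ) ^ kk m v)
              (fun i => (h m i : ℤ) * ∏ v, (lam v i : ℤ) ^ kk m v) j : ℤ) : ℝ) =
            ((((h m i : ℤ) * ∏ v, (lam v i : ℤ) ^ kk m v : ℤ)) : ℝ) := by
          rw [sum_eq_single i.succ]
          · simp
          · intro j _ hj
            rw [if_neg (Ne.symm hj), zero_mul]
          · intro hni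
            exact absurd (mem_univ _) hni
        rw [e1]
        push_cast
        rw [abs_of_nonneg (mul_nonneg (Nat.cast_nonneg _) (hPp m i).le)])
    (by
      intro m hm l
      induction l using Fin.cases with
      | zero =>
        simp only [Fin.cases_zero]
        have h2 := hP0p m
        have h3 := hHp m hm
        positivity
      | succ i =>
        simp only [Fin.cases_succ]
        have h2 := hPp m i
        have h3 := hhR m hm i
        positivity)
    (by
      intro m hm l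
      have h5 : (0 : ℝ) ≤ m := Nat.cast_nonneg m
      have h6 := hcm m
      have h7 : 0 ≤ c * m * Λ := by positivity
      have h8 : 0 ≤ (s : ℝ) * (c * m) := by positivity
      have h9 := mul_nonneg hε.le h5
      have e0 : (c * Λ + s * c + ε + c) * m = c * m * Λ + s * (c * m) + ε * m + c * m := by ring
      rw [e0]
      induction l using Fin.cases with
      | zero =>
        simp only [Fin.cases_zero]
        rw [Real.log_div (by have := hP0p m; positivity) (hHp m hm).ne',
          Real.log_mul (hP0p m).ne' (Real.exp_pos _).ne', Real.log_exp]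
        have a1 := hP0n m
        have a2 := hP0le m hm
        have a3 := hHn m hm
        have a4 := hHle m hm
        rw [abs_le]
        constructor <;> linarith
      | succ i =>
        simp only [Fin.cases_succ]
        rw [Real.log_mul (by have := hhR m hm i; positivity) (hPp m i).ne']
        have a1 := hPn m i
        have a2 := hPle m hm i
        have a3 := hhn m hm i
        have a4 := hh m hm i
        rw [abs_le]
        constructor <;> linarith)
    (by
      intro m hm
      rw [Fin.prod_univ_succ]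
      simp only [Fin.cases_zero, Fin.cases_succ, Int.cast_natCast]
      rw [abs_of_pos (mul_pos (hP0p m) (prod_pos fun i _ => hPp m i)),
        Real.log_mul (hP0p m).ne' (prod_pos fun i _ => hPp m i).ne',
        Real.log_prod fun i _ => (hPp m i).ne']
      have h2 := htot m hm
      have h5 : (0 : ℝ) ≤ m := Nat.cast_nonneg m
      have h6 := hcm m
      have h8 : 0 ≤ (s : ℝ) * (c * m) := by positivity
      have h9 := mul_nonneg hε.le h5
      have e0 : (c * Λ + s * c + ε + c) * m = c * m * Λ + s * (c * m) + ε * m + c * m := by ring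
      rw [e0]
      linarith)
    (by
      intro m hm
      rw [Fin.prod_univ_succ, Fin.sum_univ_succ]
      simp only [Fin.cases_zero, Fin.cases_succ, Int.cast_natCast]
      rw [abs_of_pos (mul_pos (hP0p m) (prod_pos fun i _ => hPp m i)),
        Real.log_mul (hP0p m).ne' (prod_pos fun i _ => hPp m i).ne',
        Real.log_prod fun i _ => (hPp m i).ne',
        Real.log_div (by have := hP0p m; positivity) (hHp m hm).ne',
        Real.log_mul (hP0p m).ne' (Real.exp_pos _).ne', Real.log_exp, hlogH m hm]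
      have e1 : ∑ i, Real.log ((h m i : ℝ) * P m i) = ∑ i, Real.log (h m i) + ∑ i, Real.log (P m i) := by
        rw [← sum_add_distrib]
        refine sum_congr rfl fun i _ => ?_
        rw [Real.log_mul (by have := hhR m hm i; positivity) (hPp m i).ne']
      rw [e1]
      linarith)
  refine ⟨w 0, fun i => w i.succ, ?_, ?_⟩
  · by_contra hcon
    push Not at hcon
    apply hw
    funext l
    induction l using Fin.cases with
    | zero => exact hcon.1
    | succ i => exact congrFun hcon.2 i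
  · refine hwinf.mono ?_
    rintro m ⟨hm, h2⟩
    refine ⟨hm, ?_⟩
    rw [Fin.sum_univ_succ] at h2
    simp only [Fin.cases_zero, Fin.cases_succ] at h2
    have h3 : (((w 0 * (z m * ∏ v, (lam0 v : ℤ) ^ kk m v) +
      ∑ i : Fin s, w i.succ * ((h m i : ℤ) * ∏ v, (lam v i : ℤ) ^ kk m v) : ℤ)) : ℝ) = ((0 : ℤ) : ℝ) := by
      rw [h2]
    push_cast at h3
    exact h3

/-- the same for an arbitrary finite index set -/
theorem sub_gen {κ : Type} [Fintype κ] [Nonempty κ] (y : κ → ℝ) (hy : ∀ i, IsAlgebraic ℚ (y i))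
    {ι : Type} [Fintype ι]
    (lam0 : ι → ℕ) (hlam0 : ∀ v, 1 ≤ lam0 v) (lam : ι → κ → ℕ) (hlam : ∀ v i, 1 ≤ lam v i)
    (kk : ℕ → ι → ℕ) (c ε : ℝ) (hc : 0 ≤ c) (hε : 0 < ε) (h : ℕ → κ → ℕ) (z : ℕ → ℤ) (S : Set ℕ)
    (hS : S.Infinite)
    (h1 : ∀ m ∈ S, ∀ i, 1 ≤ h m i) (hh : ∀ m ∈ S, ∀ i, Real.log (h m i) ≤ c * m)
    (hk : ∀ m ∈ S, ∀ v, (kk m v : ℝ) ≤ c * m)
    (hb : ∀ m ∈ S, |∑ i, y i * (h m i * ∏ v, (lam v i : ℝ) ^ kk m v) - z m * ∏ v, (lam0 v : ℝ) ^ kk m v| ≤
      (∏ v, (lam0 v : ℝ) ^ kk m v) * Real.exp (-(ε * m)) / ∏ i, (h m i : ℝ)) :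
    ∃ (u0 : ℤ) (u : κ → ℤ), (u0 ≠ 0 ∨ u ≠ 0) ∧ {m ∈ S | (u0 : ℝ) * (z m * ∏ v, (lam0 v : ℝ) ^ kk m v) +
      ∑ i, (u i : ℝ) * (h m i * ∏ v, (lam v i : ℝ) ^ kk m v) = 0}.Infinite := by
  classical
  set e := Fintype.equivFin κ with he
  have hcard : 1 ≤ Fintype.card κ := Fintype.card_pos
  obtain ⟨u0, u, hu, hinf⟩ := sub_fin (fun j => y (e.symm j)) (fun j => hy _) lam0 hlam0
    (fun v j => lam v (e.symm j)) (fun v j => hlam _ _) kk c ε hc hε (fun m j => h m (e.symm j)) z S hS hcard
    (fun m hm j => h1 m hm _) (fun m hm j => hh m hm _) hk (by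
      intro m hm
      have h2 := hb m hm
      have e1 : ∑ j, y (e.symm j) * (h m (e.symm j) * ∏ v, (lam v (e.symm j) : ℝ) ^ kk m v) =
          ∑ i, y i * (h m i * ∏ v, (lam v i : ℝ) ^ kk m v) :=
        e.symm.sum_comp (fun i => y i * (h m i * ∏ v, (lam v i : ℝ) ^ kk m v))
      have e2 : ∏ j, (h m (e.symm j) : ℝ) = ∏ i, (h m i : ℝ) := e.symm.prod_comp (fun i => (h m i : ℝ))
      rw [e1, e2]
      exact h2)
  refine ⟨u0, fun i => u (e i), ?_, ?_⟩
  · rcases hu with h2 | h2
    · exact Or.inl h2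
    · refine Or.inr fun h3 => h2 ?_
      funext j
      have := congrFun h3 (e.symm j)
      simpa using this
  · refine hinf.mono ?_
    rintro m ⟨hm, h2⟩
    refine ⟨hm, ?_⟩
    have e1 : ∑ i, (u (e i) : ℝ) * (h m i * ∏ v, (lam v i : ℝ) ^ kk m v) =
        ∑ j, (u j : ℝ) * (h m (e.symm j) * ∏ v, (lam v (e.symm j) : ℝ) ^ kk m v) := by
      rw [← e.symm.sum_comp (fun i => (u (e i) : ℝ) * (h m i * ∏ v, (lam v i : ℝ) ^ kk m v))]
      simp
    rw [e1]
    exact h2

end Pool.Agent.H607.Uni
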